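import Pool.Agent.H827.AN.Push

/-!
# Preimages of cells under diffeomorphisms of class `C¹`
-/

set_option autoImplicit false
set_option linter.unusedSectionVars false

open Set Filter Topology Metric Function
open scoped Manifold ContDiff NNReal InnerProductSpace

noncomputable section

namespace Pool.Agent.H827.AN

open Pool.Agent.Y522 Pool.Agent.N550.KH Pool.Agent.X175.SH

/-- local diffeomorphisms of class `C¹` -/
abbrev LD1 (n : ℕ) {M N : Type} [TopologicalSpace M] [ChartedSpace (E n) M]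
    [TopologicalSpace N] [ChartedSpace (E n) N] (f : M → N) (x : M) : Prop :=
  IsLocalDiffeomorphAt (𝓡 n) (𝓡 n) 1 f x

section general

variable {n : ℕ} {M N P : Type} [TopologicalSpace M] [ChartedSpace (E n) M]
    [TopologicalSpace N] [ChartedSpace (E n) N] [TopologicalSpace P] [ChartedSpace (E n) P]

theorem LD_one {f : M → N} {x : M} (h : LD n f x) : LD1 n f x := by
  obtain ⟨Φ, hx, heq⟩ := h
  exact ⟨{ toPartialEquiv := Φ.toPartialEquiv
           open_source := Φ.open_source
           open_target := Φ.open_target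
           contMDiffOn_toFun := Φ.contMDiffOn_toFun.of_le (by simp)
           contMDiffOn_invFun := Φ.contMDiffOn_invFun.of_le (by simp) }, hx, heq⟩

theorem LD1_comp {g : N → P} {f : M → N} {x : M} (hg : LD1 n g (f x)) (hf : LD1 n f x) :
    LD1 n (fun y => g (f y)) x := IsLocalDiffeomorphAt.comp (𝓡 n) P hf hg

theorem LD1_id (x : M) : LD1 n (fun y : M => y) x := LD_one (LD.id x)

theorem LD1_iterate {f : M → M} (h : ∀ x, LD1 n f x) (k : ℕ) : ∀ x, LD1 n (f^[k]) x := by
  induction k with
  | zero => exact fun x => LD1_id x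
  | succ k ih =>
    intro x
    rw [Function.iterate_succ']
    exact LD1_comp (g := f) (f := f^[k]) (h _) (ih x)

/-- lifting regularity through a local diffeomorphism -/
theorem LD1_of_comp {F : M → N} {π : N → P} {y : M} (hF : ContinuousAt F y)
    (hπ : LD1 n π (F y)) (h : LD1 n (fun w => π (F w)) y) : LD1 n F y := by
  obtain ⟨Φ, hΦ, heq⟩ := hπ
  have h1 : LD1 n Φ.symm (π (F y)) := by
    refine ⟨Φ.symm, ?_, fun _ _ => rfl⟩
    change π (F y) ∈ Φ.target
    rw [heq hΦ]
    exact Φ.map_source hΦ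
  obtain ⟨Φ₂, h2, heq2⟩ := LD1_comp (g := Φ.symm) (f := fun w => π (F w)) h1 h
  have hev : ∀ᶠ w in 𝓝 y, F w = Φ.symm (π (F w)) := by
    filter_upwards [hF.eventually_mem (Φ.open_source.mem_nhds hΦ)] with w hw
    rw [heq hw]
    exact (Φ.left_inv hw).symm
  obtain ⟨s, hs, hso, hys⟩ := mem_nhds_iff.1 hev
  refine ⟨{ toPartialEquiv := (Φ₂.toOpenPartialHomeomorph.restrOpen s hso).toPartialEquiv
            open_source := (Φ₂.toOpenPartialHomeomorph.restrOpen s hso).open_source
            open_target := (Φ₂.toOpenPartialHomeomorph.restrOpen s hso).open_target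
            contMDiffOn_toFun := ?_
            contMDiffOn_invFun := ?_ }, ?_, ?_⟩
  · apply Φ₂.contMDiffOn_toFun.mono
    intro x hx
    rw [OpenPartialHomeomorph.restrOpen_source] at hx
    exact hx.1
  · apply Φ₂.contMDiffOn_invFun.mono
    intro x hx
    exact hx.1
  · change y ∈ (Φ₂.toOpenPartialHomeomorph.restrOpen s hso).source
    rw [OpenPartialHomeomorph.restrOpen_source]
    exact ⟨h2, hys⟩
  · intro w hw
    change w ∈ (Φ₂.toOpenPartialHomeomorph.restrOpen s hso).source at hw
    rw [OpenPartialHomeomorph.restrOpen_source] at hw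
    exact (hs hw.2).trans (heq2 hw.1)

theorem LD1_strict {f : E n → E n} {x : E n} (hf : LD1 n f x) :
    ∃ A : E n ≃L[ℝ] E n, HasStrictFDerivAt f (A : E n →L[ℝ] E n) x := by
  let A := hf.mfderivToContinuousLinearEquiv one_ne_zero
  have h2 : ContDiffAt ℝ 1 f x := contMDiffAt_iff_contDiffAt.1 hf.contMDiffAt
  have h3 : HasStrictFDerivAt f (fderiv ℝ f x) x := h2.hasStrictFDerivAt one_ne_zero
  refine ⟨A, ?_⟩
  convert h3 using 1
  ext1 w
  show mfderiv (𝓡 n) (𝓡 n) f x w = fderiv ℝ f x w
  rw [mfderiv_eq_fderiv]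
  rfl

end general

open Classical in
/-- a bump function on a cell, pulled back -/
def bmp {n : ℕ} {Z : Type} (c : E n → Z) (G : Z → Z) (R : ℝ) (z : Z) : ℝ :=
  if G z ∈ range c then max 0 (1 - ‖invFun c (G z)‖ ^ 2 / R ^ 2) else 0

section c1

variable {n : ℕ} {Z : Type} [TopologicalSpace Z] [T2Space Z] [ChartedSpace (E n) Z]

theorem bmp_eq {c : E n → Z} (hc : Cell n c) (G : Z → Z) (R : ℝ) {z : Z} {y : E n}
    (h : G z = c y) : bmp c G R z = max 0 (1 - ‖y‖ ^ 2 / R ^ 2) := by
  unfold bmp
  rw [if_pos ⟨y, h.symm⟩, h, leftInverse_invFun hc.inj]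

theorem bmp_off {c : E n → Z} (G : Z → Z) (R : ℝ) {z : Z} (h : G z ∉ range c) :
    bmp c G R z = 0 := by
  unfold bmp
  rw [if_neg h]

theorem continuous_bmp {c : E n → Z} (hc : Cell n c) {G : Z → Z} (hG : Continuous G) {R : ℝ}
    (hR : 0 < R) : Continuous (bmp c G R) := by
  rw [continuous_iff_continuousAt]
  intro z
  by_cases hz : G z ∈ range c
  · obtain ⟨y, hy⟩ := hz
    have h1 : ContinuousAt (invFun c) (c y) := by
      have := LD.inverse (k := c) isOpen_univ (fun z _ => hc.ld z)
        (fun z _ => leftInverse_invFun hc.inj z) (mem_univ y)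
      exact this.continuousAt
    rw [hy] at h1
    have h2 : ContinuousAt (fun w => max 0 (1 - ‖invFun c (G w)‖ ^ 2 / R ^ 2)) z := by
      have h3 : ContinuousAt (fun w => invFun c (G w)) z := ContinuousAt.comp h1 hG.continuousAt
      exact (continuousAt_const.max (continuousAt_const.sub ((h3.norm.pow 2).div_const _)))
    refine h2.congr ?_
    filter_upwards [(hc.oe.isOpen_range.preimage hG).mem_nhds (show z ∈ G ⁻¹' range c from ⟨y, hy⟩)]
      with w hw
    have hw' : G w ∈ range c := hw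
    unfold bmp
    rw [if_pos hw']
  · have hK : IsClosed (c '' closedBall 0 R) :=
      ((isCompact_closedBall (0 : E n) R).image hc.cont).isClosed
    have hz' : z ∈ (G ⁻¹' (c '' closedBall 0 R))ᶜ := fun h => hz (by
      obtain ⟨y, -, hy⟩ := h
      exact ⟨y, hy⟩)
    have h2 : ContinuousAt (fun _ : Z => (0 : ℝ)) z := continuousAt_const
    refine h2.congr ?_
    filter_upwards [(hK.preimage hG).isOpen_compl.mem_nhds hz'] with w hw
    by_cases hw' : G w ∈ range c
    · obtain ⟨y, hy⟩ := hw'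
      rw [bmp_eq hc G R hy.symm]
      have h3 : R < ‖y‖ := by
        by_contra hcon
        exact hw ⟨y, by rw [mem_closedBall_zero_iff]; exact not_lt.1 hcon, hy⟩
      have h4 : 1 ≤ ‖y‖ ^ 2 / R ^ 2 := by
        rw [le_div_iff₀ (by positivity), one_mul]
        exact pow_le_pow_left₀ hR.le h3.le 2
      rw [max_eq_left (by linarith)]
    · rw [bmp_off G R hw']

/-- preimages of cells under `C¹` diffeomorphisms -/
theorem cell_pull1 [IsManifold (𝓡 n) ∞ Z] {c : E n → Z} (hc : Cell n c) {G : Z ≃ₜ Z}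
    (hG : ∀ z, LD1 n G z) {A : Set Z} (hA : IsCompact A) (hAc : ∀ x ∈ A, G x ∈ range c) :
    ∃ g' : E n → Z, Cell n g' ∧ A ⊆ range g' := by
  have hinvL : ∀ y, LD n (invFun c) (c y) := fun y =>
    LD.inverse (k := c) isOpen_univ (fun z _ => hc.ld z)
      (fun z _ => leftInverse_invFun hc.inj z) (mem_univ y)
  -- the radius
  have hcont : ContinuousOn (fun x => ‖invFun c (G x)‖) A := by
    intro x hx
    obtain ⟨y, hy⟩ := hAc x hx
    have h1 : ContinuousAt (invFun c) (G x) := by
      rw [← hy]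
      exact (hinvL y).continuousAt
    exact (ContinuousAt.comp h1 G.continuous.continuousAt).norm.continuousWithinAt
  obtain ⟨R₀, hR₀⟩ := (hA.image_of_continuousOn hcont).bddAbove
  set R := |R₀| + 1 with hR
  have hRpos : 0 < R := by positivity
  have hR₁ : |R₀| < R := by rw [hR]; linarith
  set ρ : Z → ℝ := fun z => 1 - bmp c G R z with hρ
  have hρc : Continuous ρ := continuous_const.sub (continuous_bmp hc G.continuous hRpos)
  set τ : ℝ := R₀ ^ 2 / R ^ 2 with hτ
  have hτ1 : τ < 1 := by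
    rw [hτ, div_lt_one (by positivity), ← sq_abs R₀]
    exact pow_lt_pow_left₀ hR₁ (abs_nonneg _) (by norm_num)
  set Reg : Set Z := {z | ρ z ≤ τ} with hReg
  have hsub : Reg ⊆ G ⁻¹' (c '' closedBall 0 R) := by
    intro z hz
    by_contra hcon
    have h1 : bmp c G R z = 0 := by
      by_cases hw' : G z ∈ range c
      · obtain ⟨y, hy⟩ := hw'
        rw [bmp_eq hc G R hy.symm]
        have h3 : R < ‖y‖ := by
          by_contra hcon'
          exact hcon ⟨y, by rw [mem_closedBall_zero_iff]; exact not_lt.1 hcon', hy⟩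
        have h4 : 1 ≤ ‖y‖ ^ 2 / R ^ 2 := by
          rw [le_div_iff₀ (by positivity), one_mul]
          exact pow_le_pow_left₀ hRpos.le h3.le 2
        rw [max_eq_left (by linarith)]
      · rw [bmp_off G R hw']
    have h2 : 1 - bmp c G R z ≤ τ := hz
    rw [h1] at h2
    linarith
  have hRegc : IsCompact Reg := by
    refine IsCompact.of_isClosed_subset ?_ (isClosed_le hρc continuous_const) hsub
    exact (G.isCompact_preimage).2 ((isCompact_closedBall (0 : E n) R).image hc.cont)
  have hAR : A ⊆ Reg := by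
    intro x hx
    obtain ⟨y, hy⟩ := hAc x hx
    have h1 : ‖y‖ ≤ R₀ := by
      have := hR₀ ⟨x, hx, rfl⟩
      simp only at this
      rwa [← hy, leftInverse_invFun hc.inj] at this
    show 1 - bmp c G R x ≤ τ
    rw [bmp_eq hc G R hy.symm]
    have h2 : ‖y‖ ^ 2 / R ^ 2 ≤ τ := by
      rw [hτ]
      exact div_le_div_of_nonneg_right (pow_le_pow_left₀ (norm_nonneg _) h1 2) (by positivity)
    have h3 := le_max_right 0 (1 - ‖y‖ ^ 2 / R ^ 2)
    linarith
  obtain ⟨g₀, hg₀, hg₀0, -⟩ := exists_cell (n := n) (G.symm (c 0)) (V := univ) univ_mem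
  obtain ⟨g₁, hg₁, hg₁R⟩ := ael (n := n) ρ ρ hρc hRegc (fun x hx y hy => le_trans hy hx) hg₀ (by
      intro x hx hx0
      obtain ⟨y, hy, hy'⟩ := hsub hx
      have h1 : 1 - bmp c G R x ≤ 0 := hx0
      rw [bmp_eq hc G R hy'.symm] at h1
      have h2 : ‖y‖ = 0 := by
        by_contra hne
        have h3 : 0 < ‖y‖ ^ 2 / R ^ 2 := by positivity
        have h4 : max 0 (1 - ‖y‖ ^ 2 / R ^ 2) < 1 := max_lt one_pos (by linarith)
        linarith
      rw [norm_eq_zero] at h2
      refine ⟨0, ?_⟩
      rw [hg₀0]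
      apply G.injective
      rw [G.apply_symm_apply, ← hy', h2]) (by
      intro x hx hx0
      obtain ⟨y, hy, hy'⟩ := hsub hx
      have hx1 : ρ x ≤ τ := hx
      have hρx : ρ x = 1 - max 0 (1 - ‖y‖ ^ 2 / R ^ 2) := by
        show 1 - bmp c G R x = _
        rw [bmp_eq hc G R hy'.symm]
      have hy0 : y ≠ 0 := by
        rintro rfl
        rw [hρx] at hx0
        simp at hx0
      have hyR : ‖y‖ < R := by
        by_contra hcon
        have h4 : 1 ≤ ‖y‖ ^ 2 / R ^ 2 := by
          rw [le_div_iff₀ (by positivity), one_mul]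
          exact pow_le_pow_left₀ hRpos.le (not_lt.1 hcon) 2
        rw [hρx, max_eq_left (by linarith)] at hx1
        linarith
      -- a small cell
      have hV : G ⁻¹' (c '' ball 0 R) ∈ 𝓝 x := by
        refine (((hc.openMap _ isOpen_ball).preimage G.continuous)).mem_nhds ?_
        exact ⟨y, by rw [mem_ball_zero_iff]; exact hyR, hy'⟩
      obtain ⟨cx, hcx, hcx0, hcxr⟩ := exists_cell (n := n) x hV
      set ψ : E n → E n := fun a => invFun c (G (cx a)) with hψ
      have hψ0 : ψ 0 = y := by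
        show invFun c (G (cx 0)) = y
        rw [hcx0, ← hy', leftInverse_invFun hc.inj]
      have hψL : LD1 n ψ 0 := by
        refine LD1_comp (g := invFun c) (f := fun a => G (cx a)) ?_ ?_
        · show LD1 n (invFun c) (G (cx 0))
          rw [hcx0, ← hy']
          exact LD_one (hinvL y)
        · exact LD1_comp (g := G) (f := cx) (hG _) (LD_one (hcx.ld 0))
      obtain ⟨A', hA'⟩ := LD1_strict hψL
      have hq : HasStrictFDerivAt (fun a => ‖ψ a‖ ^ 2)
          (2 • (innerSL ℝ (ψ 0)).comp (A' : E n →L[ℝ] E n)) 0 := by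
        have h5 := (hasStrictFDerivAt_norm_sq (ψ 0)).comp (0 : E n) hA'
        exact h5
      set w : E n := A'.symm (-y) with hw
      have hww : A' w = -y := by rw [hw, ContinuousLinearEquiv.apply_symm_apply]
      have hypos : 0 < ‖y‖ ^ 2 := by positivity
      have hev := hq.isLittleO.def (show 0 < ‖y‖ ^ 2 / (‖w‖ + 1) by positivity)
      obtain ⟨β₀, hβ₀, hβ₀'⟩ := Metric.eventually_nhds_iff.1 hev
      set β : ℝ := min (β₀ / 2) (β₀ / (2 * (‖w‖ + 1))) with hβ
      have hβ0 : 0 < β := by positivity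
      refine (fun (⟨K₀, h5, h6, h7⟩ : ∃ K₀ : Z → Z, IsDf n K₀ ∧ Down ρ ρ K₀ ∧
        ∀ᶠ y in 𝓝 (cx 0), K₀ y ≠ y) => ⟨K₀, h5, h6, by rwa [hcx0] at h7⟩)
        (push (n := n) hcx ρ ρ w hβ0 ?_)
      intro a ha t ht0 htβ
      have ha' : ‖a‖ < β := by simpa using ha
      have hβ1 : β ≤ β₀ / 2 := min_le_left _ _
      have hβ2 : β ≤ β₀ / (2 * (‖w‖ + 1)) := min_le_right _ _
      have htw : ‖t • w‖ ≤ β₀ / 2 := by
        rw [norm_smul, Real.norm_eq_abs, abs_of_pos ht0]
        have h8 : t * (2 * (‖w‖ + 1)) ≤ β₀ := by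
          rw [← le_div_iff₀ (by positivity)]
          exact htβ.le.trans hβ2
        have h9 : t * (2 * (‖w‖ + 1)) = 2 * (t * ‖w‖) + 2 * t := by ring
        linarith
      have hmem : dist (a + t • w, a) ((0 : E n), (0 : E n)) < β₀ := by
        rw [Prod.dist_eq, max_lt_iff]
        constructor
        · show dist (a + t • w) 0 < β₀
          rw [dist_zero_right]
          have := norm_add_le a (t • w)
          linarith
        · show dist a 0 < β₀
          rw [dist_zero_right]
          linarith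
      have h10 := hβ₀' hmem
      simp only [add_sub_cancel_left] at h10
      have h11 : (2 • (innerSL ℝ (ψ 0)).comp (A' : E n →L[ℝ] E n)) (t • w) =
          -(2 * (t * ‖y‖ ^ 2)) := by
        have e1 : (2 • (innerSL ℝ (ψ 0)).comp (A' : E n →L[ℝ] E n)) (t • w) =
            2 * ⟪ψ 0, A' (t • w)⟫_ℝ := by
          rw [two_smul, two_mul]
          rfl
        rw [e1, map_smul, hww, hψ0, inner_smul_right, inner_neg_right,
          real_inner_self_eq_norm_sq]
        ring
      rw [h11, Real.norm_eq_abs, abs_le, norm_smul, Real.norm_eq_abs, abs_of_pos ht0] at h10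
      have h12 : ‖y‖ ^ 2 / (‖w‖ + 1) * (t * ‖w‖) ≤ t * ‖y‖ ^ 2 := by
        have h13 : ‖w‖ / (‖w‖ + 1) ≤ 1 := by
          rw [div_le_one (by positivity)]; linarith
        have h14 : ‖y‖ ^ 2 / (‖w‖ + 1) * (t * ‖w‖) = t * ‖y‖ ^ 2 * (‖w‖ / (‖w‖ + 1)) := by
          field_simp
        rw [h14]
        have := mul_le_mul_of_nonneg_left h13 (show 0 ≤ t * ‖y‖ ^ 2 by positivity)
        linarith
      have h15 : ‖ψ (a + t • w)‖ ^ 2 < ‖ψ a‖ ^ 2 := by
        have := h10.2
        have h16 : 0 < t * ‖y‖ ^ 2 := by positivity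
        linarith
      have hval : ∀ a, ρ (cx a) = ‖ψ a‖ ^ 2 / R ^ 2 := by
        intro a
        obtain ⟨y', hy1, hy2⟩ := hcxr ⟨a, rfl⟩
        rw [mem_ball_zero_iff] at hy1
        have e1 : ψ a = y' := by
          show invFun c (G (cx a)) = y'
          rw [← hy2, leftInverse_invFun hc.inj]
        show 1 - bmp c G R (cx a) = _
        rw [bmp_eq hc G R hy2.symm, e1, max_eq_right]
        · ring
        · have h4 : ‖y'‖ ^ 2 / R ^ 2 ≤ 1 := by
            rw [div_le_one (by positivity)]
            exact pow_le_pow_left₀ (norm_nonneg _) hy1.le 2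
          linarith
      rw [hval, hval]
      have h17 := div_lt_div_of_pos_right h15 (show 0 < R ^ 2 by positivity)
      exact ⟨h17, h17.le⟩)
  exact ⟨g₁, hg₁, hAR.trans hg₁R⟩

end c1

end Pool.Agent.H827.AN
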