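import Pool.Graph.R_seed8.H789R2.AN.Hyp

/-!
# Points of the local leaves in given directions
-/

set_option autoImplicit false

open Filter Topology Set Metric

namespace Pool.Agent.H827.AN

open Pool.Agent.H721R2 Pool.Agent.H789R2.AN

section direction

variable {X E : Type*} [MetricSpace X] [NormedAddCommGroup E] [NormedSpace ℝ E]

/-- The local unstable set contains points in every unstable direction. -/
theorem direction' [CompactSpace X] (S : HypSys X E) (η : ℝ) (hη : 0 < η) :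
    ∃ r > 0, ∀ x, ∀ w ∈ S.Vu x, ‖w‖ < r →
      ∃ z, S.URel (12 * (S.K * ‖w‖)) x z ∧ ‖S.e z - S.e x - w‖ ≤ η * ‖w‖ := by
  have hK := S.one_le_K
  have hK0 : 0 < S.K := by linarith
  set K := S.K with hKdef
  set η₁ := min (1 / 4) (η / (200 * K ^ 2)) with hη₁
  have hη₁0 : 0 < η₁ := lt_min (by norm_num) (by positivity)
  have hη₁1 : η₁ ≤ 1 / 4 := min_le_left _ _
  have hη₁2 : 200 * K ^ 2 * η₁ ≤ η := by
    have : η₁ ≤ η / (200 * K ^ 2) := min_le_right _ _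
    rw [le_div_iff₀ (by positivity)] at this
    linarith
  obtain ⟨r2, hr2, hA2⟩ := S.A2 η₁ hη₁0
  obtain ⟨ε₀, hε₀, hlp⟩ := S.local_product
  obtain ⟨c, hc⟩ := exists_LP S
  obtain ⟨εs, hεs, hcS⟩ := S.coneS η₁ hη₁0 (by linarith)
  obtain ⟨εu, hεu, hcU⟩ := S.symm.coneS η₁ hη₁0 (by linarith)
  obtain ⟨r3, hr3, hA3⟩ := S.A3 η₁ hη₁0
  set ρ := min r2 (min ε₀ (min (min c εs) (min εu (r3 / 2)))) with hρ
  have hρ0 : 0 < ρ := lt_min hr2 (lt_min hε₀ (lt_min (lt_min hc.c_pos hεs)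
    (lt_min hεu (by positivity))))
  refine ⟨ρ / (20 * K), by positivity, fun x w hw hwr => ?_⟩
  have hw20 : 20 * K * ‖w‖ ≤ ρ := by
    rw [lt_div_iff₀ (by positivity)] at hwr
    linarith
  have hn0 : 0 ≤ ‖w‖ := norm_nonneg w
  have hKw : ‖w‖ ≤ K * ‖w‖ := by nlinarith
  have hρ2 : ρ ≤ r2 := min_le_left _ _
  have hρε₀ : ρ ≤ ε₀ := (min_le_right _ _).trans (min_le_left _ _)
  have hρ3 : ρ ≤ min (min c εs) (min εu (r3 / 2)) := (min_le_right _ _).trans (min_le_right _ _)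
  have hρc : ρ ≤ c := hρ3.trans ((min_le_left _ _).trans (min_le_left _ _))
  have hρs : ρ ≤ εs := hρ3.trans ((min_le_left _ _).trans (min_le_right _ _))
  have hρu : ρ ≤ εu := hρ3.trans ((min_le_right _ _).trans (min_le_left _ _))
  have hρr3 : ρ ≤ r3 / 2 := hρ3.trans ((min_le_right _ _).trans (min_le_right _ _))
  by_cases hw0 : w = 0
  · refine ⟨x, fun k => by rw [dist_self]; positivity, ?_⟩
    rw [hw0]; simp
  have hwpos : 0 < ‖w‖ := norm_pos_iff.mpr hw0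
  have hdist : ∀ p q : X, dist p q = ‖S.e q - S.e p‖ := fun p q => by
    rw [dist_comm, S.isom]
  -- the point y'
  obtain ⟨y, hy⟩ := hA2 x 0 (Submodule.zero_mem _) w hw (by
    rw [zero_add]
    have : 1 * ‖w‖ < 20 * K * ‖w‖ := mul_lt_mul_of_pos_right (by linarith) hwpos
    linarith)
  rw [zero_add] at hy
  have hxy : dist x y ≤ 5 / 4 * ‖w‖ := by
    rw [hdist]
    have h1 := norm_add_le (S.e y - S.e x - w) w
    rw [sub_add_cancel] at h1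
    have h2 : η₁ * ‖w‖ ≤ 1 / 4 * ‖w‖ := mul_le_mul_of_nonneg_right hη₁1 hn0
    linarith
  have hKd : K * dist x y ≤ 5 / 4 * (K * ‖w‖) := by
    have := mul_le_mul_of_nonneg_left hxy hK0.le
    linarith
  obtain ⟨z, hz1, hz2⟩ := hlp y x (by
    rw [dist_comm]
    have : 20 * K * ‖w‖ = 20 * (K * ‖w‖) := by ring
    linarith)
  rw [dist_comm y x] at hz1 hz2
  have h12 : 9 * K * dist x y ≤ 12 * (K * ‖w‖) := by
    have : 9 * K * dist x y = 9 * (K * dist x y) := by ring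
    linarith
  have h12' : 12 * (K * ‖w‖) ≤ ρ := by
    have : 20 * K * ‖w‖ = 20 * (K * ‖w‖) := by ring
    have : 0 ≤ K * ‖w‖ := by positivity
    linarith
  have hz1' : S.SRel ρ z y := (hz1.symm).mono (h12.trans h12')
  have hz2' : S.URel ρ x z := (hz2.symm).mono (h12.trans h12')
  have hdzy : dist z y ≤ 12 * (K * ‖w‖) := (hz1.symm).dist_le.trans h12
  have hdxz : dist x z ≤ 12 * (K * ‖w‖) := (hz2.symm).dist_le.trans h12
  refine ⟨z, (hz2.symm).mono h12, ?_⟩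
  obtain ⟨u, hu, s, hs, h1, -, h2⟩ := hcU x z (fun k => (hz2' k).trans hρu)
  obtain ⟨s₁, hs₁, u₁, hu₁, h3, -, h4⟩ := hcS z y (fun k => (hz1' k).trans hρs)
  have h1' : ‖S.e z - S.e x - (u + s)‖ ≤ η₁ * dist x z := h1
  -- transport s₁ to x
  obtain ⟨s₂, hs₂, h5⟩ := hA3 z x (by
    rw [dist_comm]
    have := hz2'.dist_le
    linarith) s₁ hs₁
  have hb1 : η₁ * dist x z ≤ 12 * K * (η₁ * ‖w‖) := by
    calc η₁ * dist x z ≤ η₁ * (12 * (K * ‖w‖)) := mul_le_mul_of_nonneg_left hdxz hη₁0.le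
      _ = _ := by ring
  have hb2 : η₁ * dist z y ≤ 12 * K * (η₁ * ‖w‖) := by
    calc η₁ * dist z y ≤ η₁ * (12 * (K * ‖w‖)) := mul_le_mul_of_nonneg_left hdzy hη₁0.le
      _ = _ := by ring
  have hs₁n : ‖s₁‖ ≤ 18 * (K * ‖w‖) := by
    have e1 : s₁ = (S.e y - S.e z) - (S.e y - S.e z - (s₁ + u₁)) - u₁ := by abel
    have h6 := norm_sub_le ((S.e y - S.e z) - (S.e y - S.e z - (s₁ + u₁))) u₁
    have h7 := norm_sub_le (S.e y - S.e z) (S.e y - S.e z - (s₁ + u₁))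
    rw [← e1] at h6
    rw [← hdist z y] at h7
    have h8 : η₁ * dist z y ≤ 1 / 4 * dist z y := mul_le_mul_of_nonneg_right hη₁1 dist_nonneg
    linarith
  have h6 : ‖s₁ - s₂‖ ≤ 18 * K * (η₁ * ‖w‖) := by
    calc ‖s₁ - s₂‖ ≤ η₁ * ‖s₁‖ := h5
      _ ≤ η₁ * (18 * (K * ‖w‖)) := mul_le_mul_of_nonneg_left hs₁n hη₁0.le
      _ = _ := by ring
  -- comparison
  have h7 : ‖s₂ + (u - w)‖ ≤ 67 * K * (η₁ * ‖w‖) := by
    have e1 : s₂ + (u - w) = (S.e y - S.e x - w) - (S.e y - S.e z - (s₁ + u₁)) -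
        (S.e z - S.e x - (u + s)) - s - u₁ - (s₁ - s₂) := by abel
    rw [e1]
    have h8 := norm_sub_le ((S.e y - S.e x - w) - (S.e y - S.e z - (s₁ + u₁)) -
        (S.e z - S.e x - (u + s)) - s - u₁) (s₁ - s₂)
    have h9 := norm_sub_le ((S.e y - S.e x - w) - (S.e y - S.e z - (s₁ + u₁)) -
        (S.e z - S.e x - (u + s)) - s) u₁
    have h10 := norm_sub_le ((S.e y - S.e x - w) - (S.e y - S.e z - (s₁ + u₁)) -
        (S.e z - S.e x - (u + s))) s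
    have h11 := norm_sub_le ((S.e y - S.e x - w) - (S.e y - S.e z - (s₁ + u₁)))
        (S.e z - S.e x - (u + s))
    have h13 := norm_sub_le (S.e y - S.e x - w) (S.e y - S.e z - (s₁ + u₁))
    have h14 : η₁ * ‖w‖ ≤ K * (η₁ * ‖w‖) := by
      have : 0 ≤ η₁ * ‖w‖ := by positivity
      nlinarith
    linarith
  obtain ⟨-, h8⟩ := S.angle x s₂ hs₂ (u - w) (Submodule.sub_mem _ hu hw)
  have h9 : ‖u - w‖ ≤ 67 * K ^ 2 * (η₁ * ‖w‖) := by
    calc ‖u - w‖ ≤ K * ‖s₂ + (u - w)‖ := h8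
      _ ≤ K * (67 * K * (η₁ * ‖w‖)) := mul_le_mul_of_nonneg_left h7 hK0.le
      _ = _ := by ring
  have h10 : ‖S.e z - S.e x - w‖ ≤ 24 * K * (η₁ * ‖w‖) + 67 * K ^ 2 * (η₁ * ‖w‖) := by
    have e1 : S.e z - S.e x - w = (S.e z - S.e x - (u + s)) + s + (u - w) := by abel
    rw [e1]
    have h11 := norm_add_le ((S.e z - S.e x - (u + s)) + s) (u - w)
    have h13 := norm_add_le (S.e z - S.e x - (u + s)) s
    linarith
  have h11 : K ≤ K ^ 2 := by nlinarith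
  have h13 : 0 ≤ η₁ * ‖w‖ := by positivity
  have h14 : 24 * K * (η₁ * ‖w‖) ≤ 24 * K ^ 2 * (η₁ * ‖w‖) :=
    mul_le_mul_of_nonneg_right (by linarith) h13
  have h15 : 200 * K ^ 2 * η₁ * ‖w‖ ≤ η * ‖w‖ := mul_le_mul_of_nonneg_right hη₁2 hn0
  have h16 : 0 ≤ K ^ 2 * (η₁ * ‖w‖) := by positivity
  have e2 : 200 * K ^ 2 * η₁ * ‖w‖ = 200 * (K ^ 2 * (η₁ * ‖w‖)) := by ring
  rw [e2] at h15
  have e3 : 24 * K ^ 2 * (η₁ * ‖w‖) = 24 * (K ^ 2 * (η₁ * ‖w‖)) := by ring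
  have e4 : 67 * K ^ 2 * (η₁ * ‖w‖) = 67 * (K ^ 2 * (η₁ * ‖w‖)) := by ring
  rw [e3] at h14
  rw [e4] at h10
  linarith

end direction

end Pool.Agent.H827.AN
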