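import Pool.Agent.H827.AN.Met
import Pool.Agent.H827.AN.Dir

/-!
# The distance from a leaf decreases in the direction of the bracket
-/

set_option autoImplicit false
set_option linter.unusedSectionVars false

open Filter Topology Set Metric
open scoped InnerProductSpace

namespace Pool.Agent.H827.AN

open Pool.Agent.H721R2 Pool.Agent.H789R2.AN

section inner

variable {X E : Type*} [MetricSpace X] [NormedAddCommGroup E] [InnerProductSpace ℝ E]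

/-- Local form: normal vectors are orthogonal to unstable spaces. -/
theorem inner_le' [CompactSpace X] (S : HypSys X E) {x : X} (ν : E) {ρ₀ : ℝ} (hρ₀ : 0 < ρ₀)
    (hmin : ∀ z, S.URel ρ₀ x z → ‖ν‖ ≤ ‖ν - (S.e z - S.e x)‖) {w : E} (hw : w ∈ S.Vu x) :
    ⟪ν, w⟫_ℝ ≤ 0 := by
  by_contra hcon
  push Not at hcon
  have hK := S.one_le_K
  have hK0 : 0 < S.K := by linarith
  have hw0 : w ≠ 0 := by
    rintro rfl
    rw [inner_zero_right] at hcon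
    exact lt_irrefl _ hcon
  have hwpos : 0 < ‖w‖ := norm_pos_iff.mpr hw0
  have hν0 : 0 ≤ ‖ν‖ := norm_nonneg ν
  set q := ⟪ν, w⟫_ℝ with hq
  set η := min 1 (q / (4 * (‖ν‖ + 1) * ‖w‖)) with hη
  have hη0 : 0 < η := lt_min one_pos (by positivity)
  have hη1 : η ≤ 1 := min_le_left _ _
  have hη2 : η * (‖ν‖ * ‖w‖) ≤ q / 4 := by
    have h1 : η ≤ q / (4 * (‖ν‖ + 1) * ‖w‖) := min_le_right _ _
    rw [le_div_iff₀ (by positivity)] at h1
    have h2 : 0 ≤ η * ‖w‖ := by positivity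
    have h3 : η * (4 * (‖ν‖ + 1) * ‖w‖) = 4 * (η * (‖ν‖ * ‖w‖)) + 4 * (η * ‖w‖) := by ring
    linarith
  obtain ⟨r, hr, hdir⟩ := direction' S η hη0
  set t := min (min (r / (2 * ‖w‖)) (q / (8 * ‖w‖ ^ 2))) (ρ₀ / (12 * S.K * ‖w‖)) with ht
  have ht0 : 0 < t := by positivity
  have ht1 : t * ‖w‖ ≤ r / 2 := by
    have h1 : t ≤ r / (2 * ‖w‖) := (min_le_left _ _).trans (min_le_left _ _)
    rw [le_div_iff₀ (by positivity)] at h1
    linarith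
  have ht2 : t * ‖w‖ ^ 2 ≤ q / 8 := by
    have h1 : t ≤ q / (8 * ‖w‖ ^ 2) := (min_le_left _ _).trans (min_le_right _ _)
    rw [le_div_iff₀ (by positivity)] at h1
    linarith
  have ht3 : 12 * (S.K * (t * ‖w‖)) ≤ ρ₀ := by
    have h1 : t ≤ ρ₀ / (12 * S.K * ‖w‖) := min_le_right _ _
    rw [le_div_iff₀ (by positivity)] at h1
    linarith
  have htw : ‖t • w‖ = t * ‖w‖ := by rw [norm_smul, Real.norm_eq_abs, abs_of_pos ht0]
  obtain ⟨z, hz1, hz2⟩ := hdir x (t • w) (Submodule.smul_mem _ _ hw) (by rw [htw]; linarith)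
  rw [htw] at hz1
  have h1 := hmin z (hz1.mono ht3)
  set ρ := S.e z - S.e x - t • w with hρ
  have e1 : S.e z - S.e x = t • w + ρ := by rw [hρ]; abel
  rw [e1] at h1
  rw [htw] at hz2
  have h2 : ‖ν‖ ^ 2 ≤ ‖ν - (t • w + ρ)‖ ^ 2 := pow_le_pow_left₀ hν0 h1 2
  rw [norm_sub_sq_real, inner_add_right, inner_smul_right] at h2
  have h3 : ‖t • w + ρ‖ ≤ 2 * (t * ‖w‖) := by
    have h4 := norm_add_le (t • w) ρ
    rw [htw] at h4
    have h5 : η * (t * ‖w‖) ≤ 1 * (t * ‖w‖) := mul_le_mul_of_nonneg_right hη1 (by positivity)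
    linarith
  have h4 : ‖t • w + ρ‖ ^ 2 ≤ (2 * (t * ‖w‖)) ^ 2 := pow_le_pow_left₀ (norm_nonneg _) h3 2
  have h5 : -(‖ν‖ * ‖ρ‖) ≤ ⟪ν, ρ⟫_ℝ := by
    have := abs_real_inner_le_norm ν ρ
    rw [abs_le] at this
    exact this.1
  have h6 : ‖ν‖ * ‖ρ‖ ≤ ‖ν‖ * (η * (t * ‖w‖)) := mul_le_mul_of_nonneg_left hz2 hν0
  have h7 : ‖ν‖ * (η * (t * ‖w‖)) = t * (η * (‖ν‖ * ‖w‖)) := by ring
  have h8 : t * (η * (‖ν‖ * ‖w‖)) ≤ t * (q / 4) := mul_le_mul_of_nonneg_left hη2 ht0.le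
  have h9 : (2 * (t * ‖w‖)) ^ 2 = 4 * (t * (t * ‖w‖ ^ 2)) := by ring
  have h10 : t * (t * ‖w‖ ^ 2) ≤ t * (q / 8) := mul_le_mul_of_nonneg_left ht2 ht0.le
  have h11 : 0 < t * q := by positivity
  rw [← hq] at h2
  nlinarith

end inner

/-- a stable leaf in a space which is locally isometric to `X` -/
structure LeafL {X F : Type} [MetricSpace X] [NormedAddCommGroup F] [NormedSpace ℝ F]
    (S : HypSys X F) {Z : Type} [MetricSpace Z] (π : Z → X) (r ε r₂ ε₁ : ℝ) (L : Set Z) : Prop where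
  closed : IsClosed L
  nonempty : L.Nonempty
  r₂_pos : 0 < r₂
  ε₁_pos : 0 < ε₁
  stab : ∀ w ∈ L, ∀ w' ∈ L, dist w w' < r → S.SRel ε (π w) (π w')
  br : ∀ w ∈ L, ∀ z, dist w z < r₂ → ∃ s ∈ L, dist s z < r / 16 ∧ S.SRel ε (π w) (π s) ∧
    S.URel ε (π s) (π z)
  ext : ∀ w ∈ L, ∀ y, S.SRel ε₁ (π w) y → ∃ q ∈ L, π q = y ∧ dist w q = dist (π w) y

section desc

variable {X F : Type} [MetricSpace X] [NormedAddCommGroup F] [InnerProductSpace ℝ F]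

/-- nearest points -/
theorem exists_nearest [CompactSpace X] {Z : Type} [MetricSpace Z] {π : Z → X} {r : ℝ}
    (h : Sheet Z X π r) {L : Set Z} (hL : IsClosed L) {z s : Z} (hs : s ∈ L)
    (hd : dist z s < r / 2) : ∃ w ∈ L, infDist z L = dist z w ∧ ∀ q ∈ L, dist z w ≤ dist z q := by
  have h1 : IsCompact (closedBall z (dist z s)) := h.isCompact_closedBall z hd
  have h2 : (L ∩ closedBall z (dist z s)).Nonempty := ⟨s, hs, by rw [mem_closedBall, dist_comm]⟩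
  obtain ⟨w, ⟨hw1, hw2⟩, hmin⟩ := (h1.inter_left hL).exists_isMinOn h2
    (continuous_const.dist continuous_id (f := fun _ => z)).continuousOn
  have h3 : ∀ q ∈ L, dist z w ≤ dist z q := by
    intro q hq
    by_cases hqb : q ∈ closedBall z (dist z s)
    · exact hmin ⟨hq, hqb⟩
    · rw [mem_closedBall, dist_comm, not_le] at hqb
      rw [mem_closedBall, dist_comm] at hw2
      exact hw2.trans hqb.le
  exact ⟨w, hw1, le_antisymm (infDist_le_dist_of_mem hw1) ((le_infDist ⟨w, hw1⟩).2 fun {y} hy => h3 y hy), h3⟩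

theorem hin_step {K R δ κ : ℝ} {ξ τ a b d : F} (hK : 0 ≤ K) (hκK : κ * K = 1 / 100)
    (hδ : δ * K ≤ R / 100) (h1 : ⟪ξ, a⟫_ℝ ≤ ‖ξ‖ * (6 * (κ * R))) (h2 : ‖b‖ ≤ δ)
    (h3 : ‖d‖ ≤ κ * R) (h4 : τ = a - ξ + b - d) (hξ : 88 / 100 * R ≤ K * ‖ξ‖) :
    2 * K * ⟪ξ, τ⟫_ℝ ≤ -(R * ‖ξ‖) := by
  have h5 : ⟪ξ, τ⟫_ℝ = ⟪ξ, a⟫_ℝ - ‖ξ‖ ^ 2 + ⟪ξ, b⟫_ℝ - ⟪ξ, d⟫_ℝ := by
    rw [h4, inner_sub_right, inner_add_right, inner_sub_right, real_inner_self_eq_norm_sq]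
  have h6 := (real_inner_le_norm ξ b).trans (mul_le_mul_of_nonneg_left h2 (norm_nonneg ξ))
  have h7 := abs_real_inner_le_norm ξ d
  rw [abs_le] at h7
  have h7' := mul_le_mul_of_nonneg_left h3 (norm_nonneg ξ)
  have h8 : ⟪ξ, τ⟫_ℝ ≤ ‖ξ‖ * (7 * (κ * R) + δ - ‖ξ‖) := by
    have : ‖ξ‖ * (7 * (κ * R) + δ - ‖ξ‖) = ‖ξ‖ * (6 * (κ * R)) + ‖ξ‖ * (κ * R) + ‖ξ‖ * δ -
      ‖ξ‖ ^ 2 := by ring
    linarith [h7.1]
  have h9 : 2 * K * (7 * (κ * R) + δ - ‖ξ‖) ≤ -R := by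
    have e1 : 2 * K * (7 * (κ * R) + δ - ‖ξ‖) = 14 * (κ * K) * R + 2 * (δ * K) - 2 * (K * ‖ξ‖) := by
      ring
    have hR : 0 ≤ R ∨ R < 0 := le_or_gt 0 R
    rw [e1, hκK]
    rcases hR with hR | hR
    · linarith
    · have : 0 ≤ κ * R := (norm_nonneg _).trans h3
      have h10 : κ * R * K = 1 / 100 * R := by rw [mul_right_comm, hκK]
      have h11 : 0 ≤ κ * R * K := mul_nonneg this hK
      linarith
  have h10 := mul_le_mul_of_nonneg_left h8 (show 0 ≤ 2 * K by linarith)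
  have h11 := mul_le_mul_of_nonneg_left h9 (norm_nonneg ξ)
  have e2 : 2 * K * (‖ξ‖ * (7 * (κ * R) + δ - ‖ξ‖)) =
    ‖ξ‖ * (2 * K * (7 * (κ * R) + δ - ‖ξ‖)) := by ring
  rw [e2] at h10
  linarith

theorem hlow_step {K R κ D : ℝ} {p q1 q2 u1 s1 u2 s2 : F} (hK : 1 ≤ K) (hκK : κ * K = 1 / 100)
    (hκ1 : κ ≤ 1 / 100) (hR : 0 ≤ R)
    (h7 : ‖u1 - u2‖ ≤ K * ‖(s1 - s2) + (u1 - u2)‖) (hp : ‖p‖ ≤ D) (hq : p = q1 - q2)
    (hq1 : ‖q1‖ = R) (h1 : ‖q1 - (u1 + s1)‖ ≤ κ * R) (h2 : ‖s1‖ ≤ κ * R)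
    (h3 : ‖q2 - (s2 + u2)‖ ≤ 3 * (κ * R)) (h4 : ‖u2‖ ≤ 3 * (κ * R)) :
    9 / 10 * R ≤ K * D := by
  have e1 : (s1 - s2) + (u1 - u2) = p - (q1 - (u1 + s1)) + (q2 - (s2 + u2)) := by rw [hq]; abel
  have h8 := norm_add_le (p - (q1 - (u1 + s1))) (q2 - (s2 + u2))
  rw [← e1] at h8
  have h9 := norm_sub_le p (q1 - (u1 + s1))
  have h11 : R - κ * R - κ * R ≤ ‖u1‖ := by
    have e2 : q1 = (q1 - (u1 + s1)) + s1 + u1 := by abel
    have h12 := norm_add_le ((q1 - (u1 + s1)) + s1) u1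
    have h13 := norm_add_le (q1 - (u1 + s1)) s1
    rw [← e2, hq1] at h12
    linarith
  have h12 := norm_sub_norm_le u1 u2
  have h13 : ‖(s1 - s2) + (u1 - u2)‖ ≤ D + 4 * (κ * R) := by linarith
  have h14 := mul_le_mul_of_nonneg_left h13 (show 0 ≤ K by linarith)
  have h15 : K * (4 * (κ * R)) = 4 / 100 * R := by
    have : K * (4 * (κ * R)) = 4 * (κ * K) * R := by ring
    rw [this, hκK]; ring
  have h16 : κ * R ≤ 1 / 100 * R := mul_le_mul_of_nonneg_right hκ1 hR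
  rw [mul_add, h15] at h14
  linarith

theorem hnew_step {K R t : ℝ} {ξ τ : F} (hK : 1 ≤ K) (hR : 0 < R) (ht0 : 0 < t)
    (ht : t * (16 * K ^ 2) ≤ 1) (hin : 2 * K * ⟪ξ, τ⟫_ℝ ≤ -(R * ‖ξ‖)) (hτ : ‖τ‖ ≤ 2 * R)
    (hξ : 88 / 100 * R ≤ K * ‖ξ‖) : ‖ξ + t • τ‖ ≤ ‖ξ‖ - t * R / (4 * K) := by
  have hK0 : 0 < K := by linarith
  have hKK : 1 ≤ K ^ 2 := one_le_pow₀ hK
  have ht1 : t ≤ 1 / 16 := by
    have : t * 16 ≤ t * (16 * K ^ 2) := by
      apply mul_le_mul_of_nonneg_left _ ht0.le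
      linarith
    linarith
  have hξ' : 88 / 100 * R / K ≤ ‖ξ‖ := by
    rw [div_le_iff₀ hK0]; linarith
  have hb : t * R / (4 * K) ≤ ‖ξ‖ := by
    rw [div_le_iff₀ (by positivity)]
    have h1 : t * R ≤ 1 / 16 * R := mul_le_mul_of_nonneg_right ht1 hR.le
    have h2 : ‖ξ‖ * (4 * K) = 4 * (K * ‖ξ‖) := by ring
    rw [h2]
    linarith
  have key : ‖ξ + t • τ‖ ^ 2 ≤ (‖ξ‖ - t * R / (4 * K)) ^ 2 := by
    rw [norm_add_sq_real, inner_smul_right, norm_smul, Real.norm_eq_abs, abs_of_pos ht0]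
    set A := R / (2 * K) * ‖ξ‖ with hA
    have hA0 : 0 ≤ A := by positivity
    have h5 : (t * ‖τ‖) ^ 2 ≤ t * A := by
      have h6 : ‖τ‖ ^ 2 ≤ (2 * R) ^ 2 := pow_le_pow_left₀ (norm_nonneg _) hτ 2
      have h7 : t * (2 * R) ^ 2 ≤ A := by
        have h8 : A = R * (K * ‖ξ‖) / (2 * K ^ 2) := by rw [hA]; field_simp
        rw [h8, le_div_iff₀ (by positivity)]
        have h9 : t * (2 * R) ^ 2 * (2 * K ^ 2) = t * (16 * K ^ 2) * (R * R) / 2 := by ring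
        have h10 : t * (16 * K ^ 2) * (R * R) ≤ 1 * (R * R) :=
          mul_le_mul_of_nonneg_right ht (by positivity)
        have h11 : R * (88 / 100 * R) ≤ R * (K * ‖ξ‖) := mul_le_mul_of_nonneg_left hξ hR.le
        have h12 : 0 ≤ R * R := by positivity
        rw [h9]
        linarith
      have h8 : (t * ‖τ‖) ^ 2 = t * (t * ‖τ‖ ^ 2) := by ring
      rw [h8]
      exact mul_le_mul_of_nonneg_left ((mul_le_mul_of_nonneg_left h6 ht0.le).trans h7) ht0.le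
    have h6 : 2 * (t * ⟪ξ, τ⟫_ℝ) ≤ -(2 * (t * A)) := by
      have h7 : ⟪ξ, τ⟫_ℝ ≤ -(R * ‖ξ‖) / (2 * K) := by
        rw [le_div_iff₀ (by positivity)]
        linarith
      have h8 := mul_le_mul_of_nonneg_left h7 (show 0 ≤ 2 * t by linarith)
      have h9 : 2 * t * (-(R * ‖ξ‖) / (2 * K)) = -(2 * (t * A)) := by rw [hA]; field_simp
      linarith
    have h7 : (‖ξ‖ - t * R / (4 * K)) ^ 2 = ‖ξ‖ ^ 2 - t * A + (t * R / (4 * K)) ^ 2 := by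
      rw [hA]; field_simp; ring
    rw [h7]
    have h9 : 0 ≤ (t * R / (4 * K)) ^ 2 := sq_nonneg _
    linarith
  exact le_of_sq_le_sq key (by linarith)

end desc

end Pool.Agent.H827.AN
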