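import Pool.Agent.H827.AN.Desc

/-!
# The descent estimate
-/

set_option autoImplicit false
set_option linter.unusedSectionVars false

open Filter Topology Set Metric
open scoped InnerProductSpace

namespace Pool.Agent.H827.AN

open Pool.Agent.H721R2 Pool.Agent.H789R2.AN

section desc

variable {X F : Type} [MetricSpace X] [NormedAddCommGroup F] [InnerProductSpace ℝ F]

/-- the descent estimate -/
theorem descent [CompactSpace X] (S : HypSys X F) : ∃ ε > 0, ∀ (Z : Type) [MetricSpace Z]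
    (π : Z → X) (r r₂ ε₁ : ℝ) (L : Set Z), Sheet Z X π r → LeafL S π r ε r₂ ε₁ L →
    r₂ ≤ r / 100 →
    ∀ z, 0 < infDist z L → infDist z L < r₂ →
      ∃ s ∈ S.Vs (π z), ∃ u ∈ S.Vu (π z), 0 < ‖u + s‖ ∧ ∃ δ > 0, ∀ z' ∈ ball z δ, ∀ z'' ∈ ball z δ,
        ∀ t, 0 < t → t < δ → ‖S.e (π z'') - S.e (π z') - t • (u + s)‖ ≤ δ * t →
          infDist z'' L ≤ infDist z' L - t * ‖u + s‖ / (16 * S.K) ∧
            dist z' z'' ≤ 2 * (t * ‖u + s‖) := by
  have hK := S.one_le_K
  have hK0 : 0 < S.K := by linarith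
  set K := S.K with hKdef
  set κ := 1 / (100 * K) with hκ
  have hκ0 : 0 < κ := by positivity
  have hκK : κ * K = 1 / 100 := by rw [hκ]; field_simp
  have hκ1 : κ ≤ 1 / 100 := by
    have := mul_le_mul_of_nonneg_left hK hκ0.le
    linarith
  obtain ⟨εs, hεs, hcS⟩ := S.coneS κ hκ0 (by linarith)
  obtain ⟨εu, hεu, hcU⟩ := S.symm.coneS κ hκ0 (by linarith)
  refine ⟨min εs εu, lt_min hεs hεu, ?_⟩
  intro Z _ π r r₂ ε₁ L hSh hL hrr z hz0 hz1
  have hr := hSh.pos
  have hdist : ∀ p q : X, dist p q = ‖S.e q - S.e p‖ := fun p q => by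
    rw [dist_comm, S.isom]
  obtain ⟨w0, hw0, hd0⟩ := (infDist_lt_iff hL.nonempty).1 hz1
  obtain ⟨s0, hs0, hd1, hSr, hUr⟩ := hL.br w0 hw0 z (by rwa [dist_comm])
  set x := π z with hx
  set sb := π s0 with hsb
  set R := dist s0 z with hR
  have hRx : dist sb x = R := hSh.iso _ _ (by linarith)
  have hR0 : 0 < R := lt_of_lt_of_le hz0 (by rw [hR, dist_comm]; exact infDist_le_dist_of_mem hs0)
  -- the direction
  obtain ⟨u, hu, s, hs, h1, -, h2⟩ := hcU x sb (fun k => (hUr.symm k).trans (min_le_right _ _))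
  have h1' : ‖S.e sb - S.e x - (u + s)‖ ≤ κ * R := by
    rw [← hRx, dist_comm]
    exact h1
  have hnb : ‖S.e sb - S.e x‖ = R := by rw [← hdist, dist_comm, hRx]
  have hκR : κ * R ≤ 1 / 100 * R := mul_le_mul_of_nonneg_right hκ1 hR0.le
  have hτ1 : ‖u + s‖ ≤ 2 * R := by
    have h3 := norm_sub_le (S.e sb - S.e x) (S.e sb - S.e x - (u + s))
    rw [sub_sub_cancel, hnb] at h3
    linarith
  have hτ2 : R / 2 ≤ ‖u + s‖ := by
    have h3 := norm_sub_norm_le (S.e sb - S.e x) (u + s)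
    rw [hnb] at h3
    linarith
  set τ := u + s with hτ
  refine ⟨s, hs, u, hu, by linarith, ?_⟩
  set δ := min (min (R / (100 * K)) (1 / (16 * K ^ 2))) (R / (8 * K)) with hδ
  have hδ0 : 0 < δ := by positivity
  have hδ1 : δ * K ≤ R / 100 := by
    have : δ ≤ R / (100 * K) := (min_le_left _ _).trans (min_le_left _ _)
    rw [le_div_iff₀ (by positivity)] at this
    linarith
  have hδR : δ ≤ R / 100 := by
    have := mul_le_mul_of_nonneg_left hK hδ0.le
    linarith
  have hδ2 : δ * (16 * K ^ 2) ≤ 1 := by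
    have : δ ≤ 1 / (16 * K ^ 2) := (min_le_left _ _).trans (min_le_right _ _)
    rwa [le_div_iff₀ (by positivity)] at this
  have hδ3 : δ * (8 * K) ≤ R := by
    have : δ ≤ R / (8 * K) := min_le_right _ _
    rwa [le_div_iff₀ (by positivity)] at this
  refine ⟨δ, hδ0, ?_⟩
  clear_value δ
  intro z' hz' z'' hz'' t ht0 ht1 herr
  rw [mem_ball] at hz' hz''
  -- nearest point
  have hzs' : dist z' s0 ≤ R + δ := by
    have := dist_triangle_right z' s0 z
    rw [← hR] at this
    linarith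
  obtain ⟨w, hw, hw1, hw2⟩ := exists_nearest hSh hL.closed hs0 (z := z') (by linarith)
  set wb := π w with hwb
  have hzw : dist z' w ≤ R + δ := (hw2 s0 hs0).trans hzs'
  have hzw' : dist (π z') wb = dist z' w := hSh.iso _ _ (by linarith)
  have hws : dist w s0 ≤ 3 * R := by
    have := dist_triangle_left w s0 z'
    linarith
  have hws' : dist wb sb = dist w s0 := hSh.iso _ _ (by linarith)
  have hSw : S.SRel (min εs εu) wb sb := hL.stab w hw s0 hs0 (by linarith)
  have hxz' : dist (π z') x = dist z' z := hSh.iso _ _ (by linarith)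
  set ξ := S.e (π z') - S.e wb with hξ
  have hξn : ‖ξ‖ = dist z' w := by rw [hξ, ← S.isom, hzw']
  -- orthogonality
  have horth : ∀ σ ∈ S.Vs wb, ⟪ξ, σ⟫_ℝ ≤ 0 := by
    intro σ hσ
    refine inner_le' S.symm (x := wb) ξ (ρ₀ := min ε₁ (r / 4)) (lt_min hL.ε₁_pos (by positivity))
      ?_ hσ
    intro y hy
    have hy' : S.SRel (min ε₁ (r / 4)) wb y := hy
    obtain ⟨q, hq, hq1, hq2⟩ := hL.ext w hw y (hy'.mono (min_le_left _ _))
    have h3 : dist w q ≤ r / 4 := by rw [hq2]; exact (hy'.mono (min_le_right _ _)).dist_le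
    have h4 : dist z' q < r := by
      have := dist_triangle z' w q
      linarith
    have h5 := hSh.iso _ _ h4
    rw [hq1] at h5
    have h6 : ξ - (S.symm.e y - S.symm.e wb) = S.e (π z') - S.e y := by
      show S.e (π z') - S.e wb - (S.e y - S.e wb) = _
      abel
    rw [hξn, h6, ← S.isom, h5]
    exact hw2 q hq
  -- cones
  have hκw : κ * dist w s0 ≤ 3 * (κ * R) := by
    have := mul_le_mul_of_nonneg_left hws hκ0.le
    linarith
  have hcone1 : ⟪ξ, S.e sb - S.e wb⟫_ℝ ≤ ‖ξ‖ * (6 * (κ * R)) := by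
    obtain ⟨σ, hσ, υ, hυ, h3, -, h4⟩ := hcS wb sb (fun k => (hSw k).trans (min_le_left _ _))
    have e1 : S.e sb - S.e wb = σ + (υ + (S.e sb - S.e wb - (σ + υ))) := by abel
    rw [e1, inner_add_right]
    have h5 := real_inner_le_norm ξ (υ + (S.e sb - S.e wb - (σ + υ)))
    have h6 := norm_add_le υ (S.e sb - S.e wb - (σ + υ))
    have h7 : ‖υ + (S.e sb - S.e wb - (σ + υ))‖ ≤ 6 * (κ * R) := by
      rw [hws'] at h3 h4
      linarith
    have h8 := mul_le_mul_of_nonneg_left h7 (norm_nonneg ξ)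
    linarith [horth σ hσ]
  have hbn : ‖S.e (π z') - S.e x‖ ≤ δ := by
    rw [← S.isom, hxz']; exact hz'.le
  have hlow : 9 / 10 * R ≤ K * (‖ξ‖ + δ) := by
    obtain ⟨u1, hu1, s1, hs1, h3, -, h4⟩ := hcU sb x (fun k => (hUr k).trans (min_le_right _ _))
    obtain ⟨s2, hs2, u2, hu2, h5, -, h6⟩ := hcS sb wb (fun k => (hSw.symm k).trans (min_le_left _ _))
    rw [hRx] at h4
    have h3' : ‖S.e x - S.e sb - (u1 + s1)‖ ≤ κ * R := by
      rw [← hRx]; exact h3
    rw [dist_comm, hws'] at h5 h6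
    obtain ⟨-, h7⟩ := S.angle sb (s1 - s2) (Submodule.sub_mem _ hs1 hs2) (u1 - u2)
      (Submodule.sub_mem _ hu1 hu2)
    refine hlow_step (p := S.e x - S.e wb) (q1 := S.e x - S.e sb) (q2 := S.e wb - S.e sb)
      hK hκK hκ1 hR0.le h7 ?_ (by abel) (by rw [← hdist, hRx]) h3' h4 (h5.trans hκw) (h6.trans hκw)
    have e2 : S.e x - S.e wb = ξ - (S.e (π z') - S.e x) := by rw [hξ]; abel
    rw [e2]
    exact (norm_sub_le _ _).trans (by linarith)
  have hξlow : 88 / 100 * R ≤ K * ‖ξ‖ := by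
    rw [mul_add] at hlow
    linarith
  -- the inner product with the direction
  have hin : 2 * K * ⟪ξ, τ⟫_ℝ ≤ -(R * ‖ξ‖) :=
    hin_step (a := S.e sb - S.e wb) (b := S.e (π z') - S.e x) (d := S.e sb - S.e x - τ)
      hK0.le hκK hδ1 hcone1 hbn h1' (by rw [hξ]; abel) hξlow
  -- the new distance
  have hdz : dist z' z'' < r := by
    have := dist_triangle_right z' z'' z
    linarith
  have hdz' : dist (π z') (π z'') = dist z' z'' := hSh.iso _ _ hdz
  have hn1 : ‖S.e (π z'') - S.e (π z')‖ ≤ t * ‖τ‖ + δ * t := by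
    have h3 := norm_add_le (S.e (π z'') - S.e (π z') - t • τ) (t • τ)
    rw [sub_add_cancel, norm_smul, Real.norm_eq_abs, abs_of_pos ht0] at h3
    linarith
  have hδτ : δ * t ≤ t * ‖τ‖ := by
    rw [mul_comm]
    exact mul_le_mul_of_nonneg_left (by linarith) ht0.le
  have hsmall : dist z' z'' ≤ 2 * (t * ‖τ‖) := by
    rw [← hdz', hdist]
    linarith
  refine ⟨?_, hsmall⟩
  have hz''w : dist z'' w < r := by
    have := dist_triangle_left z'' w z'
    have h3 := dist_triangle_right z' z'' z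
    linarith
  have hz''w' := hSh.iso _ _ hz''w
  have h3 : infDist z'' L ≤ ‖ξ + t • τ‖ + δ * t := by
    refine (infDist_le_dist_of_mem hw).trans ?_
    rw [← hz''w', S.isom]
    have e1 : S.e (π z'') - S.e (π w) = (ξ + t • τ) + (S.e (π z'') - S.e (π z') - t • τ) := by
      rw [hξ]; abel
    rw [e1]
    have := norm_add_le (ξ + t • τ) (S.e (π z'') - S.e (π z') - t • τ)
    linarith
  have h4 : ‖ξ + t • τ‖ ≤ ‖ξ‖ - t * R / (4 * K) := by
    refine hnew_step hK hR0 ht0 ?_ hin hτ1 hξlow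
    exact (mul_le_mul_of_nonneg_right ht1.le (by positivity)).trans hδ2
  rw [hw1, ← hξn]
  have h5 : δ * t ≤ t * R / (8 * K) := by
    rw [le_div_iff₀ (by positivity)]
    have := mul_le_mul_of_nonneg_left hδ3 ht0.le
    linarith
  have h6 : t * R / (4 * K) = t * R / (8 * K) + t * R / (8 * K) := by field_simp; ring
  have h7 : t * ‖τ‖ / (16 * K) ≤ t * R / (8 * K) := by
    have e1 : t * R / (8 * K) = t * (2 * R) / (16 * K) := by field_simp; ring
    rw [e1]
    exact div_le_div_of_nonneg_right (mul_le_mul_of_nonneg_left hτ1 ht0.le) (by positivity)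
  linarith

end desc

end Pool.Agent.H827.AN
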