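import Pool.Agent.H827.AN.Desc2
import Pool.Agent.H827.AN.C1

/-!
# Engulfing in a space which is locally isometric to a hyperbolic system
-/

set_option autoImplicit false
set_option linter.unusedSectionVars false

open Set Filter Topology Metric Function
open scoped Manifold ContDiff NNReal

noncomputable section

namespace Pool.Agent.H827.AN

open Pool.Agent.H721R2 Pool.Agent.Y522 Pool.Agent.N550.KH Pool.Agent.X175.SH

/-- thickenings of compact sets are compact -/
theorem Sheet.isCompact_thick {Z Y : Type} [MetricSpace Z] [MetricSpace Y] [CompactSpace Y]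
    {π : Z → Y} {r : ℝ} (h : Sheet Z Y π r) {K : Set Z} (hK : IsCompact K) (hne : K.Nonempty)
    {a : ℝ} (ha : a ≤ r / 16) : IsCompact {z | infDist z K ≤ a} := by
  have hr := h.pos
  obtain ⟨t, htK, htf, ht⟩ := hK.finite_cover_balls (show 0 < r / 8 by positivity)
  have hU : IsCompact (⋃ x ∈ t, closedBall x (r / 4)) :=
    htf.isCompact_biUnion fun x _ => h.isCompact_closedBall x (by linarith)
  refine hU.of_isClosed_subset (isClosed_le (continuous_infDist_pt K) continuous_const) ?_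
  intro z hz
  obtain ⟨y, hy, hd⟩ := hK.exists_infDist_eq_dist hne z
  have hz' : dist z y ≤ r / 16 := by
    rw [← hd]; exact le_trans hz ha
  obtain ⟨x, hx, hyx⟩ := mem_iUnion₂.1 (ht hy)
  refine mem_iUnion₂.2 ⟨x, hx, ?_⟩
  rw [mem_ball] at hyx
  rw [mem_closedBall]
  have := dist_triangle z y x
  linarith

theorem eng_abs {n : ℕ} {X F : Type} [MetricSpace X] [CompactSpace X] [ChartedSpace (E n) X]
    [NormedAddCommGroup F] [InnerProductSpace ℝ F] (S : HypSys X F) (Z : Type) [MetricSpace Z]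
    [ChartedSpace (E n) Z] [IsManifold (𝓡 n) ∞ Z] (π : Z → X) (hπ : ∀ z, LD n π z)
    {r r₂ ε₁ εd : ℝ} {L : Set Z} (hSh : Sheet Z X π r) (hL : LeafL S π r εd r₂ ε₁ L)
    (hdesc : ∀ z, 0 < infDist z L → infDist z L < r₂ →
      ∃ s ∈ S.Vs (π z), ∃ u ∈ S.Vu (π z), 0 < ‖u + s‖ ∧ ∃ δ > 0, ∀ z' ∈ ball z δ, ∀ z'' ∈ ball z δ,
        ∀ t, 0 < t → t < δ → ‖S.e (π z'') - S.e (π z') - t • (u + s)‖ ≤ δ * t →
          infDist z'' L ≤ infDist z' L - t * ‖u + s‖ / (16 * S.K) ∧
            dist z' z'' ≤ 2 * (t * ‖u + s‖))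
    (hdir : ∀ φ : E n → X, LD n φ 0 → ∀ s ∈ S.Vs (φ 0), ∀ u ∈ S.Vu (φ 0),
      ∃ (w : E n) (D : E n →L[ℝ] F), HasStrictFDerivAt (fun a => S.e (φ a)) D 0 ∧ D w = u + s)
    (b : Z)
    (hdn : ∀ K : Set Z, IsCompact K → ∀ δ > 0, ∃ G : Z ≃ₜ Z, (∀ z, LD1 n G z) ∧
      ∀ a ∈ K, ∃ y ∈ L, dist (G a) y < δ)
    (hup : ∀ A : Set Z, IsCompact A → A ⊆ L → ∀ δ > 0, ∃ G : Z ≃ₜ Z, (∀ z, LD1 n G z) ∧
      ∀ a ∈ A, dist (G a) b < δ) : Eng n Z := by
  intro K hK
  have hKK := S.one_le_K
  have hK0 : 0 < S.K := by linarith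
  have hr := hSh.pos
  have hr₂ := hL.r₂_pos
  obtain ⟨cb, hcb, hcb0, -⟩ := exists_cell (n := n) b (V := univ) univ_mem
  rcases K.eq_empty_or_nonempty with hemp | hne
  · exact ⟨cb, hcb.inj, hcb.ld, by rw [hemp]; exact empty_subset _⟩
  set c0 : ℝ := 1 / (16 * S.K) with hc0
  have hc00 : 0 < c0 := by positivity
  set lam : ℝ := c0 / 4 with hlam
  have hlam0 : 0 < lam := by positivity
  set δ : ℝ := min (r₂ / 2) (lam * (r / 16)) with hδ
  have hδ0 : 0 < δ := by positivity
  obtain ⟨G, hG, hGK⟩ := hdn K hK δ hδ0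
  have hGc : Continuous G := G.continuous
  set K' := G '' K with hK'
  have hK'c : IsCompact K' := hK.image hGc
  have hK'n : K'.Nonempty := hne.image G
  set ρ : Z → ℝ := fun z => infDist z L with hρ
  set Ψ : Z → ℝ := fun z => infDist z L + lam * infDist z K' with hΨ
  have hρc : Continuous ρ := continuous_infDist_pt L
  have hΨc : Continuous Ψ := hρc.add (continuous_const.mul (continuous_infDist_pt K'))
  set Reg : Set Z := {z | Ψ z ≤ δ} with hReg
  have hRegc : IsCompact Reg := by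
    refine (hSh.isCompact_thick hK'c hK'n le_rfl).of_isClosed_subset
      (isClosed_le hΨc continuous_const) ?_
    intro z hz
    have h1 : infDist z L + lam * infDist z K' ≤ δ := hz
    have h2 : 0 ≤ infDist z L := infDist_nonneg
    have h3 : lam * infDist z K' ≤ lam * (r / 16) := by
      have := min_le_right (r₂ / 2) (lam * (r / 16))
      linarith
    exact le_of_mul_le_mul_left h3 hlam0
  have hK'R : K' ⊆ Reg := by
    intro z hz
    show infDist z L + lam * infDist z K' ≤ δ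
    rw [infDist_zero_of_mem hz, mul_zero, add_zero]
    obtain ⟨a, ha, rfl⟩ := hz
    obtain ⟨y, hy, hay⟩ := hGK a ha
    exact (infDist_le_dist_of_mem hy).trans hay.le
  -- the cell near the leaf
  have hA : IsCompact (Reg ∩ L) := hRegc.inter_right hL.closed
  obtain ⟨δb, hδb, hball⟩ := Metric.mem_nhds_iff.1
    (hcb.oe.isOpen_range.mem_nhds (show b ∈ range cb from ⟨0, hcb0⟩))
  obtain ⟨H, hH, hHA⟩ := hup _ hA inter_subset_right δb hδb
  obtain ⟨g₀, hg₀, hg₀A⟩ := cell_pull1 hcb hH (A := Reg ∩ L) hA fun a ha =>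
    hball (by rw [mem_ball]; exact hHA a ha)
  -- engulf
  obtain ⟨g₁, hg₁, hg₁R⟩ := ael (n := n) ρ Ψ hρc hRegc
    (fun x hx y hy => le_trans hy hx) hg₀ (by
      intro x hx hx0
      refine hg₀A ⟨hx, ?_⟩
      rw [hL.closed.mem_iff_infDist_zero hL.nonempty]
      exact le_antisymm hx0 infDist_nonneg) (by
      intro x hx hx0
      have h1 : infDist x L < r₂ := by
        have h2 : infDist x L + lam * infDist x K' ≤ δ := hx
        have h3 : 0 ≤ lam * infDist x K' := mul_nonneg hlam0.le infDist_nonneg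
        have h4 := min_le_left (r₂ / 2) (lam * (r / 16))
        linarith
      obtain ⟨s, hs, u, hu, hτ, δ₁, hδ₁, hd⟩ := hdesc x hx0 h1
      obtain ⟨cx, hcx, hcx0, hcxr⟩ := exists_cell (n := n) x (ball_mem_nhds x hδ₁)
      have hφ : LD n (fun a => π (cx a)) 0 := LD.comp_fun (hπ _) (hcx.ld 0)
      obtain ⟨w, D, hD, hDw⟩ := hdir (fun a => π (cx a)) hφ s (by
        show s ∈ S.Vs (π (cx 0)); rw [hcx0]; exact hs) u (by
        show u ∈ S.Vu (π (cx 0)); rw [hcx0]; exact hu)
      have hev := hD.isLittleO.def (show 0 < δ₁ / (‖w‖ + 1) by positivity)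
      obtain ⟨β₀, hβ₀, hβ₀'⟩ := Metric.eventually_nhds_iff.1 hev
      set β : ℝ := min (min (β₀ / 2) (β₀ / (2 * (‖w‖ + 1)))) δ₁ with hβ
      have hβ0 : 0 < β := by positivity
      refine (fun (⟨K₀, h5, h6, h7⟩ : ∃ K₀ : Z → Z, IsDf n K₀ ∧ Down ρ Ψ K₀ ∧
        ∀ᶠ y in 𝓝 (cx 0), K₀ y ≠ y) => ⟨K₀, h5, h6, by rwa [hcx0] at h7⟩)
        (push (n := n) hcx ρ Ψ w hβ0 ?_)
      intro a ha t ht0 htβ
      have ha' : ‖a‖ < β := by simpa using ha
      have hβ1 : β ≤ β₀ / 2 := (min_le_left _ _).trans (min_le_left _ _)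
      have hβ2 : β ≤ β₀ / (2 * (‖w‖ + 1)) := (min_le_left _ _).trans (min_le_right _ _)
      have hβ3 : β ≤ δ₁ := min_le_right _ _
      have htw : ‖t • w‖ ≤ β₀ / 2 := by
        rw [norm_smul, Real.norm_eq_abs, abs_of_pos ht0]
        have h8 : t * (2 * (‖w‖ + 1)) ≤ β₀ := by
          rw [← le_div_iff₀ (by positivity)]
          exact htβ.le.trans hβ2
        have h9 : t * (2 * (‖w‖ + 1)) = 2 * (t * ‖w‖) + 2 * t := by ring
        linarith
      have hmem : dist (a + t • w, a) ((0 : E n), (0 : E n)) < β₀ := by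
        rw [Prod.dist_eq, max_lt_iff]
        constructor
        · show dist (a + t • w) 0 < β₀
          rw [dist_zero_right]
          have := norm_add_le a (t • w)
          linarith
        · show dist a 0 < β₀
          rw [dist_zero_right]
          linarith
      have h10 := hβ₀' hmem
      simp only [add_sub_cancel_left] at h10
      rw [map_smul, hDw] at h10
      have h11 : ‖S.e (π (cx (a + t • w))) - S.e (π (cx a)) - t • (u + s)‖ ≤ δ₁ * t := by
        refine h10.trans ?_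
        rw [norm_smul, Real.norm_eq_abs, abs_of_pos ht0]
        have h12 : δ₁ / (‖w‖ + 1) * (t * ‖w‖) = δ₁ * t * (‖w‖ / (‖w‖ + 1)) := by
          field_simp
        rw [h12]
        have h13 : ‖w‖ / (‖w‖ + 1) ≤ 1 := by
          rw [div_le_one (by positivity)]; linarith
        have := mul_le_mul_of_nonneg_left h13 (show 0 ≤ δ₁ * t by positivity)
        linarith
      obtain ⟨h14, h15⟩ := hd _ (hcxr ⟨a, rfl⟩) _ (hcxr ⟨a + t • w, rfl⟩) t ht0
        (htβ.trans_le hβ3) h11
      have h16 : t * ‖u + s‖ / (16 * S.K) = c0 * (t * ‖u + s‖) := by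
        rw [hc0]; ring
      rw [h16] at h14
      have h17 : 0 < c0 * (t * ‖u + s‖) := by positivity
      refine ⟨?_, ?_⟩
      · show infDist _ L < infDist _ L
        linarith
      · show infDist _ L + lam * infDist _ K' ≤ infDist _ L + lam * infDist _ K'
        have h18 : infDist (cx (a + t • w)) K' ≤ infDist (cx a) K' + 2 * (t * ‖u + s‖) := by
          have h21 := infDist_le_infDist_add_dist (s := K') (x := cx (a + t • w)) (y := cx a)
          rw [dist_comm] at h21
          linarith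
        have h19 := mul_le_mul_of_nonneg_left h18 hlam0.le
        have h20 : lam * (2 * (t * ‖u + s‖)) = c0 * (t * ‖u + s‖) / 2 := by
          rw [hlam]; ring
        rw [mul_add, h20] at h19
        linarith)
  obtain ⟨g₂, hg₂, hg₂K⟩ := cell_pull1 hg₁ hG (A := K) hK fun a ha => hg₁R (hK'R ⟨a, ha, rfl⟩)
  exact ⟨g₂, hg₂.inj, hg₂.ld, hg₂K⟩

end Pool.Agent.H827.AN
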