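import Pool.Graph.R_seed8.Y522.Basic

/-!
# The smooth structure pulled back by a local homeomorphism
-/

set_option autoImplicit false
set_option linter.unusedSectionVars false

open Set Filter Topology Metric Function
open scoped Manifold ContDiff

noncomputable section

namespace Pool.Agent.H827.AN

open Pool.Agent.Y522

variable {n : ℕ} {Z X : Type} [TopologicalSpace Z] [TopologicalSpace X] [ChartedSpace (E n) X]
  {π : Z → X}

/-- the sheet of a local homeomorphism at a point -/
def shA (hπ : IsLocalHomeomorph π) (z : Z) : OpenPartialHomeomorph Z X := (hπ z).choose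

omit [ChartedSpace (E n) X] in
theorem shA_mem (hπ : IsLocalHomeomorph π) (z : Z) : z ∈ (shA hπ z).source :=
  (hπ z).choose_spec.1

omit [ChartedSpace (E n) X] in
theorem shA_eq (hπ : IsLocalHomeomorph π) (z y : Z) : shA hπ z y = π y :=
  (congrFun (hπ z).choose_spec.2 y).symm

omit [ChartedSpace (E n) X] in
theorem shA_right (hπ : IsLocalHomeomorph π) (z : Z) {x : X} (hx : x ∈ (shA hπ z).target) :
    π ((shA hπ z).symm x) = x := by
  rw [← shA_eq hπ z]
  exact (shA hπ z).right_inv hx

/-- the pulled back charted structure -/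
@[reducible]
def cs (hπ : IsLocalHomeomorph π) : ChartedSpace (E n) Z where
  atlas := range fun z => (shA hπ z).trans (chartAt (E n) (π z))
  chartAt z := (shA hπ z).trans (chartAt (E n) (π z))
  mem_chart_source z := by
    rw [OpenPartialHomeomorph.trans_source]
    exact ⟨shA_mem hπ z, by rw [mem_preimage, shA_eq]; exact mem_chart_source _ _⟩
  chart_mem_atlas z := mem_range_self z

theorem coord_change [IsManifold (𝓡 n) ∞ X] (x x' : X) :
    ContDiffOn ℝ ∞ (fun y => chartAt (E n) x' ((chartAt (E n) x).symm y))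
      ((chartAt (E n) x).target ∩ (chartAt (E n) x).symm ⁻¹' (chartAt (E n) x').source) := by
  have h1 : ContMDiffOn (𝓡 n) (𝓡 n) ∞ (chartAt (E n) x') (chartAt (E n) x').source :=
    contMDiffOn_chart
  have h2 : ContMDiffOn (𝓡 n) (𝓡 n) ∞ (chartAt (E n) x).symm (chartAt (E n) x).target :=
    contMDiffOn_chart_symm
  have h3 := h1.comp (h2.mono (inter_subset_left (t := (chartAt (E n) x).symm ⁻¹'
    (chartAt (E n) x').source))) (fun y hy => hy.2)
  exact contMDiffOn_iff_contDiffOn.1 h3

theorem cs_isManifold (hπ : IsLocalHomeomorph π) [IsManifold (𝓡 n) ∞ X] :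
    @IsManifold ℝ _ (E n) _ _ (E n) _ (𝓡 n) ∞ Z _ (cs hπ) := by
  let _ : ChartedSpace (E n) Z := cs hπ
  refine isManifold_of_contDiffOn (𝓡 n) ∞ Z ?_
  rintro _ _ ⟨z, rfl⟩ ⟨z', rfl⟩
  refine ((coord_change (n := n) (π z) (π z')).congr_mono (s₁ := _) ?_ ?_)
  · rintro y ⟨hy, -⟩
    simp only [OpenPartialHomeomorph.trans_source, OpenPartialHomeomorph.symm_source,
      OpenPartialHomeomorph.trans_target, OpenPartialHomeomorph.coe_trans_symm, mem_inter_iff,
      mem_preimage, comp_apply, modelWithCornersSelf_coe_symm, id_eq] at hy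
    simp only [comp_apply, OpenPartialHomeomorph.coe_trans, OpenPartialHomeomorph.coe_trans_symm,
      modelWithCornersSelf_coe_symm, modelWithCornersSelf_coe, id_eq]
    rw [shA_eq, shA_right hπ z hy.1.2]
  · rintro y ⟨hy, -⟩
    simp only [OpenPartialHomeomorph.trans_source, OpenPartialHomeomorph.symm_source,
      OpenPartialHomeomorph.trans_target, OpenPartialHomeomorph.coe_trans_symm, mem_inter_iff,
      mem_preimage, comp_apply, modelWithCornersSelf_coe_symm, id_eq] at hy
    refine ⟨hy.1.1, ?_⟩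
    have h1 := hy.2.2
    rw [shA_eq, shA_right hπ z hy.1.2] at h1
    exact h1

theorem contMDiffAt_pull (hπ : IsLocalHomeomorph π) [IsManifold (𝓡 n) ∞ X] (y : Z) :
    @ContMDiffAt ℝ _ (E n) _ _ (E n) _ (𝓡 n) Z _ (cs hπ) (E n) _ _ (E n) _ (𝓡 n) X _ _ ∞ π y := by
  let _ : ChartedSpace (E n) Z := cs hπ
  have _ : IsManifold (𝓡 n) ∞ Z := cs_isManifold hπ
  have h1 : ContMDiffAt (𝓡 n) (𝓡 n) ∞ (chartAt (E n) y) y :=
    (contMDiffOn_chart (I := 𝓡 n) (n := ∞) (x := y)).contMDiffAt (chart_source_mem_nhds _ _)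
  have e1 : chartAt (E n) y y = chartAt (E n) (π y) (π y) := by
    show chartAt (E n) (π y) (shA hπ y y) = _
    rw [shA_eq]
  have h2 : ContMDiffAt (𝓡 n) (𝓡 n) ∞ (chartAt (E n) (π y)).symm (chartAt (E n) y y) := by
    rw [e1]
    exact (contMDiffOn_chart_symm (I := 𝓡 n) (n := ∞) (x := π y)).contMDiffAt
      (chart_target_mem_nhds _ _)
  refine (h2.comp y h1).congr_of_eventuallyEq ?_
  filter_upwards [chart_source_mem_nhds (E n) y] with w hw
  have hw' : w ∈ ((shA hπ y).trans (chartAt (E n) (π y))).source := hw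
  rw [OpenPartialHomeomorph.trans_source] at hw'
  have h3 := hw'.2
  rw [mem_preimage, shA_eq] at h3
  show π w = (chartAt (E n) (π y)).symm (chartAt (E n) (π y) (shA hπ y w))
  rw [shA_eq, (chartAt (E n) (π y)).left_inv h3]

theorem contMDiffAt_shA_symm (hπ : IsLocalHomeomorph π) [IsManifold (𝓡 n) ∞ X] (z : Z) {x : X}
    (hx : x ∈ (shA hπ z).target) :
    @ContMDiffAt ℝ _ (E n) _ _ (E n) _ (𝓡 n) X _ _ (E n) _ _ (E n) _ (𝓡 n) Z _ (cs hπ) ∞
      (shA hπ z).symm x := by
  let _ : ChartedSpace (E n) Z := cs hπ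
  have _ : IsManifold (𝓡 n) ∞ Z := cs_isManifold hπ
  set y := (shA hπ z).symm x with hy
  have hyx : π y = x := shA_right hπ z hx
  have h1 : ContMDiffAt (𝓡 n) (𝓡 n) ∞ (chartAt (E n) (π y)) x :=
    (contMDiffOn_chart (I := 𝓡 n) (n := ∞) (x := π y)).contMDiffAt
      (by rw [hyx]; exact chart_source_mem_nhds _ _)
  have e1 : chartAt (E n) y y = chartAt (E n) (π y) x := by
    show chartAt (E n) (π y) (shA hπ y y) = _
    rw [shA_eq, hyx]
  have h2 : ContMDiffAt (𝓡 n) (𝓡 n) ∞ (chartAt (E n) y).symm (chartAt (E n) (π y) x) := by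
    rw [← e1]
    exact (contMDiffOn_chart_symm (I := 𝓡 n) (n := ∞) (x := y)).contMDiffAt
      (chart_target_mem_nhds _ _)
  refine (h2.comp x h1).congr_of_eventuallyEq ?_
  have hc : ContinuousAt (shA hπ z).symm x := (shA hπ z).symm.continuousAt hx
  have hev : ∀ᶠ w in 𝓝 x, (shA hπ z).symm w ∈ (shA hπ y).source :=
    hc.eventually_mem ((shA hπ y).open_source.mem_nhds (shA_mem hπ y))
  have hev2 : ∀ᶠ w in 𝓝 x, w ∈ (chartAt (E n) (π y)).source := by
    rw [hyx]; exact chart_source_mem_nhds _ _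
  filter_upwards [hev, hev2, (shA hπ z).open_target.mem_nhds hx] with w hw1 hw2 hw3
  show (shA hπ z).symm w = (shA hπ y).symm ((chartAt (E n) (π y)).symm (chartAt (E n) (π y) w))
  rw [(chartAt (E n) (π y)).left_inv hw2]
  have h3 := (shA hπ y).left_inv hw1
  rw [shA_eq, shA_right hπ z hw3] at h3
  exact h3.symm

theorem LD_pull (hπ : IsLocalHomeomorph π) [IsManifold (𝓡 n) ∞ X] (z : Z) :
    @LD n Z X _ (cs hπ) _ _ π z := by
  let _ : ChartedSpace (E n) Z := cs hπ
  refine ⟨{ toPartialEquiv := (shA hπ z).toPartialEquiv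
            open_source := (shA hπ z).open_source
            open_target := (shA hπ z).open_target
            contMDiffOn_toFun := ?_
            contMDiffOn_invFun := ?_ }, shA_mem hπ z, fun y _ => (shA_eq hπ z y).symm⟩
  · intro y _
    have h2 := contMDiffAt_pull (n := n) hπ y
    exact (h2.congr_of_eventuallyEq (Eventually.of_forall fun w => shA_eq hπ z w)).contMDiffWithinAt
  · intro x hx
    exact (contMDiffAt_shA_symm hπ z hx).contMDiffWithinAt

/-- lifting regularity through a local diffeomorphism -/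
theorem LD.of_comp {Y : Type} [TopologicalSpace Y] [ChartedSpace (E n) Y]
    [ChartedSpace (E n) Z] {F : Y → Z} {y : Y} (hF : ContinuousAt F y) (hπ : LD n π (F y))
    (h : LD n (fun w => π (F w)) y) : LD n F y := by
  obtain ⟨Φ, hΦ, heq⟩ := hπ
  have h1 : LD n Φ.symm (π (F y)) := by
    refine ⟨Φ.symm, ?_, fun _ _ => rfl⟩
    change π (F y) ∈ Φ.target
    rw [heq hΦ]
    exact Φ.map_source hΦ
  refine (LD.comp_fun (g := Φ.symm) (f := fun w => π (F w)) h1 h).congr ?_
  filter_upwards [hF.eventually_mem (Φ.open_source.mem_nhds hΦ)] with w hw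
  show F w = Φ.symm (π (F w))
  rw [heq hw]
  exact (Φ.left_inv hw).symm

end Pool.Agent.H827.AN
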