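import Pool.Agent.H827.AN.Sys2
import Pool.Agent.H827.AN.Pull
import Pool.Graph.R_seed8.H789R2.GP.ManC

/-!
# The two topologies on the leaf space agree
-/

set_option autoImplicit false
set_option linter.unusedSectionVars false
set_option linter.style.haveILetI false

open Filter Topology Set Metric Function

namespace Pool.Agent.H827.AN

open Pool.Agent.H721R2 Pool.Agent.H789R2.AN Pool.Agent.H789R2.GP Pool.Agent.TH289.K

variable {X : Type} [MetricSpace X] [CompactSpace X] {g : X ≃ₜ X} {c c' : ℝ}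

theorem exists_toLeaf (h : LP g c) (T : QS g c') (hc' : 0 < c') {p : X} {ε r : ℝ}
    (hsc : Sc T p ε r) (h2 : 2 * ε ≤ c) :
    letI := hsc.met
    ∃ e : LZ g p ≃ₜ Leaf g p, ∀ a, e a = a.z := by
  letI := hsc.met
  have hr := hsc.pos
  have hε := hsc.eps
  have hdist : ∀ a b : LZ g p, dist a b = dst T ε r a.z b.z := fun a b => rfl
  refine ⟨{ toFun := fun a => a.z
            invFun := fun z => ⟨z⟩
            left_inv := fun a => rfl
            right_inv := fun z => rfl
            continuous_toFun := ?_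
            continuous_invFun := ?_ }, fun a => rfl⟩
  · rw [continuous_iff_continuousAt]
    intro a
    show Tendsto (fun a : LZ g p => a.z) (𝓝 a) (𝓝 a.z)
    rw [Metric.tendsto_nhds]
    intro ρ hρ
    obtain ⟨ε', hε', h3⟩ := dist_of_Nb hc' T a.z (ρ / 2) (by positivity)
    have h4 : ∀ᶠ b in 𝓝 a, SR g ε' a.z.s b.z.s ∧ Nb T ε' a.z b.z := near_s h T hc' hsc h2 a hε'
    filter_upwards [h4] with b hb
    have h5 := h3 _ hb.2
    rw [dist_comm]
    linarith
  · rw [continuous_iff_continuousAt]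
    intro z
    show Tendsto (fun z : Leaf g p => (⟨z⟩ : LZ g p)) (𝓝 z) (𝓝 ⟨z⟩)
    rw [Metric.tendsto_nhds]
    intro ρ hρ
    obtain ⟨r', hr', h3⟩ := Nb_of_dist hc' T z (min ε (min (ρ / 4) (r / 4))) (by positivity)
    filter_upwards [ball_mem_nhds z hr'] with z' hz'
    rw [mem_ball, dist_comm] at hz'
    have h4 := h3 z' hz'
    obtain ⟨w, hw, h5, h6⟩ := h4
    have h7 := h5.dist12.trans (min_le_right _ _)
    have h8 := h6.dist12.trans (min_le_right _ _)
    have h9 := dist_triangle (z.pr T) w (z'.pr T)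
    have h10 := min_le_left (ρ / 4) (r / 4)
    have h11 := min_le_right (ρ / 4) (r / 4)
    rw [dist_comm]
    show dst T ε r z z' < ρ
    rw [dst_eq ⟨w, hw, h5.mono (min_le_left _ _), h6.mono (min_le_left _ _)⟩ (by linarith)]
    linarith

/-- the projection is a covering map -/
theorem covering_LZ (h : LP g c) (T : QS g c') (hc' : 0 < c') {p : X} {ε r : ℝ}
    (hsc : Sc T p ε r) (h2 : 2 * ε ≤ c) :
    letI := hsc.met
    IsCoveringMap (fun a : LZ g p => a.z.pr T) := by
  letI := hsc.met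
  obtain ⟨e, he⟩ := exists_toLeaf h T hc' hsc h2
  have h3 : IsCoveringMap (Leaf.pr T ∘ e) := (pr_isCoveringMap h hc' T p).comp_homeomorph e
  have e1 : (fun a : LZ g p => a.z.pr T) = Leaf.pr T ∘ e := by
    funext a
    show a.z.pr T = (e a).pr T
    rw [he]
  show IsCoveringMap (fun a : LZ g p => a.z.pr T)
  rw [e1]
  exact h3

/-- the leaf space is σ-compact -/
theorem sigma_LZ (n : ℕ) [ChartedSpace (Pool.Agent.Y522.E n) X] (h : LP g c) (T : QS g c')
    (hc' : 0 < c') {p : X} {ε r : ℝ} (hsc : Sc T p ε r) (h2 : 2 * ε ≤ c) (N : ℕ) (hN : 1 ≤ N)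
    (hp : g^[N] p = p) :
    letI := hsc.met
    SigmaCompactSpace (LZ g p) := by
  letI := hsc.met
  obtain ⟨e, he⟩ := exists_toLeaf h T hc' hsc h2
  have hcov : IsCoveringMap (Leaf.pr T : Leaf g p → X) := pr_isCoveringMap h hc' T p
  obtain ⟨ψ, hψ, -⟩ := hcov.isLocalHomeomorph (Leaf.base g p)
  let Φ := ψ.trans (chartAt (Pool.Agent.Y522.E n) (ψ (Leaf.base g p)))
  have hΦ : Leaf.base g p ∈ Φ.source := by
    rw [OpenPartialHomeomorph.trans_source]
    exact ⟨hψ, mem_chart_source _ _⟩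
  obtain ⟨e'⟩ := leaf_homeo h p N hN hp Φ hΦ
  have h3 : LZ g p ≃ₜ Pool.Agent.Y522.E n := e.trans e'.symm
  exact h3.isClosedEmbedding.sigmaCompactSpace

end Pool.Agent.H827.AN
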