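import Pool.Agent.H827.AN.EngA
import Pool.Agent.H827.AN.Sys3
import Pool.Graph.R_pool_sql_team_seeded_64922ed1.X175.SH.Main

/-!
# The leaf space is diffeomorphic to Euclidean space
-/

set_option autoImplicit false
set_option linter.unusedSectionVars false
set_option linter.style.haveILetI false

open Set Filter Topology Metric Function
open scoped Manifold ContDiff NNReal

noncomputable section

namespace Pool.Agent.H827.AN

open Pool.Agent.H721R2 Pool.Agent.H789R2.AN Pool.Agent.H789R2.GP Pool.Agent.TH289.K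
open Pool.Agent.Y522 Pool.Agent.N550.KH Pool.Agent.X175.SH

theorem smooth_cover {n : ℕ} {X F : Type} [MetricSpace X] [CompactSpace X] [ChartedSpace (E n) X]
    [IsManifold (𝓡 n) ∞ X] [NormedAddCommGroup F] [InnerProductSpace ℝ F] (S : HypSys X F)
    {c c' : ℝ} (h : LP S.g c) (T : IQS S.g c') (hc' : 0 < c') (hg : ∀ x, LD1 n S.g x)
    (hg' : ∀ x, LD1 n S.g.symm x)
    (hdir : ∀ φ : E n → X, LD n φ 0 → ∀ s ∈ S.Vs (φ 0), ∀ u ∈ S.Vu (φ 0),
      ∃ (w : E n) (D : E n →L[ℝ] F), HasStrictFDerivAt (fun a => S.e (φ a)) D 0 ∧ D w = u + s)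
    {p : X} {N : ℕ} (hN : 1 ≤ N) (hp : S.g^[N] p = p) :
    ∃ q : E n → X, IsCoveringMap q ∧ ∀ a, LD n q a := by
  have hc := h.c_pos
  obtain ⟨εd, hεd, hdesc⟩ := descent S
  have hε : 0 < min εd (c / 2) := by positivity
  have h2 : 2 * min εd (c / 2) ≤ c := by
    have := min_le_right εd (c / 2)
    linarith
  obtain ⟨r, hr, hsc₀⟩ := exists_Sc h T.toQS p hε h2
  have hsc : Sc T.toQS p (min εd (c / 2)) r := hsc₀ r hr le_rfl
  obtain ⟨r₂, hr₂, hr₂', ε₁, hL⟩ := exists_leafL S h T.toQS hsc h2 (min_le_left _ _)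
  letI := hsc.met
  have hcov : IsCoveringMap (fun a : LZ S.g p => a.z.pr T.toQS) := covering_LZ h T.toQS hc' hsc h2
  have hloc := hcov.isLocalHomeomorph
  letI : ChartedSpace (E n) (LZ S.g p) := cs hloc
  haveI : IsManifold (𝓡 n) ∞ (LZ S.g p) := cs_isManifold hloc
  haveI : SigmaCompactSpace (LZ S.g p) := sigma_LZ n h T.toQS hc' hsc h2 N hN hp
  have hπ : ∀ z : LZ S.g p, LD n (fun a : LZ S.g p => a.z.pr T.toQS) z := LD_pull hloc
  have hπc : Continuous (fun a : LZ S.g p => a.z.pr T.toQS) := hcov.continuous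
  have hcu : ∀ (k : ℕ) (hk : S.g^[k] p = p), Continuous (upZ hk) := fun k hk =>
    continuous_of_nb h T.toQS hsc h2 (S.g.continuous.iterate k) (pr_up T hk) (nb_up T hk hε)
  have hcd : ∀ (k : ℕ) (hk : S.g^[k] p = p), Continuous (dnZ hk) := fun k hk =>
    continuous_of_nb h T.toQS hsc h2 (S.g.symm.continuous.iterate k) (pr_dn T hk)
      (nb_dn T hk hε)
  have hup : ∀ (k : ℕ) (hk : S.g^[k] p = p) (z : LZ S.g p), LD1 n (upZ hk) z := by
    intro k hk z
    refine LD1_of_comp (π := fun a : LZ S.g p => a.z.pr T.toQS) (hcu k hk).continuousAt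
      (LD_one (hπ _)) ?_
    have e1 : (fun w : LZ S.g p => (upZ hk w).z.pr T.toQS) = fun w => S.g^[k] (w.z.pr T.toQS) :=
      funext fun w => pr_up T hk w
    show LD1 n (fun w : LZ S.g p => (upZ hk w).z.pr T.toQS) z
    rw [e1]
    exact LD1_comp (g := S.g^[k]) (LD1_iterate hg k _) (LD_one (hπ z))
  have hdn : ∀ (k : ℕ) (hk : S.g^[k] p = p) (z : LZ S.g p), LD1 n (dnZ hk) z := by
    intro k hk z
    refine LD1_of_comp (π := fun a : LZ S.g p => a.z.pr T.toQS) (hcd k hk).continuousAt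
      (LD_one (hπ _)) ?_
    have e1 : (fun w : LZ S.g p => (dnZ hk w).z.pr T.toQS) =
      fun w => S.g.symm^[k] (w.z.pr T.toQS) := funext fun w => pr_dn T hk w
    show LD1 n (fun w : LZ S.g p => (dnZ hk w).z.pr T.toQS) z
    rw [e1]
    exact LD1_comp (g := S.g.symm^[k]) (LD1_iterate hg' k _) (LD_one (hπ z))
  have HU : ∀ (k : ℕ) (hk : S.g^[k] p = p), ∃ G : LZ S.g p ≃ₜ LZ S.g p,
      (∀ z, LD1 n G z) ∧ ∀ z, G z = upZ hk z := fun k hk =>
    ⟨{ toFun := upZ hk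
       invFun := dnZ hk
       left_inv := dn_up hk
       right_inv := up_dn hk
       continuous_toFun := hcu k hk
       continuous_invFun := hcd k hk }, hup k hk, fun _ => rfl⟩
  have HD : ∀ (k : ℕ) (hk : S.g^[k] p = p), ∃ G : LZ S.g p ≃ₜ LZ S.g p,
      (∀ z, LD1 n G z) ∧ ∀ z, G z = dnZ hk z := fun k hk =>
    ⟨{ toFun := dnZ hk
       invFun := upZ hk
       left_inv := up_dn hk
       right_inv := dn_up hk
       continuous_toFun := hcd k hk
       continuous_invFun := hcu k hk }, hdn k hk, fun _ => rfl⟩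
  have hper : ∀ m : ℕ, S.g^[N * m] p = p := fun m => by
    rw [Function.iterate_mul]
    exact Function.iterate_fixed hp m
  have heng : Eng n (LZ S.g p) := by
    refine eng_abs S (LZ S.g p) (fun a => a.z.pr T.toQS) hπ hsc.sheet hL
      (hdesc (LZ S.g p) (fun a => a.z.pr T.toQS) r r₂ ε₁ (LL S.g p) hsc.sheet hL hr₂') hdir
      (mkL p (WS.refl _ p)) ?_ ?_
    · intro K hK δ hδ
      obtain ⟨k₀, hk₀⟩ := thin_dist h T hc' hsc h2 hδ hK
      have hk : k₀ ≤ N * k₀ := Nat.le_mul_of_pos_left k₀ hN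
      obtain ⟨G, hG1, hG2⟩ := HD _ (hper k₀)
      refine ⟨G, hG1, fun a ha => ?_⟩
      rw [hG2]
      exact hk₀ _ hk (hper k₀) a ha
    · intro A hA hAL δ hδ
      obtain ⟨k₀, hk₀⟩ := absorb_dist h T.toQS hc' hsc h2 hδ hA hAL
      have hk : k₀ ≤ N * k₀ := Nat.le_mul_of_pos_left k₀ hN
      obtain ⟨G, hG1, hG2⟩ := HU _ (hper k₀)
      refine ⟨G, hG1, fun a ha => ?_⟩
      rw [hG2]
      exact hk₀ _ hk (hper k₀) a ha
  obtain ⟨Φ⟩ := Pool.Agent.Y496.SH.monotone (Pool.Agent.Y784.SH.ext Pool.Agent.Y248.SH.germ) n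
    (LZ S.g p) heng
  refine ⟨(fun a : LZ S.g p => a.z.pr T.toQS) ∘ Φ.symm, ?_, fun a => ?_⟩
  · exact hcov.comp_homeomorph Φ.symm.toHomeomorph
  · exact LD.comp' (hπ _) (Φ.symm.isLocalDiffeomorph a)

end Pool.Agent.H827.AN
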