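import Pool.Agent.H827.AN.EngB

/-!
# Manifolds
-/

set_option autoImplicit false
set_option linter.unusedSectionVars false

open Set Filter Topology Metric Function
open scoped Manifold ContDiff NNReal

noncomputable section

namespace Pool.Agent.H827.AN

open Pool.Agent.H721R2 Pool.Agent.H789R2.AN Pool.Agent.H789R2.GP Pool.Agent.TH289.K
open Pool.Agent.Y522 Pool.Agent.N550.KH
open Pool.Agent.TH289 (exists_sys_ev)

theorem exists_dir {n m : ℕ} {M : Type} [TopologicalSpace M] [ChartedSpace (E n) M]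
    {e : M → E m} (he : ContMDiff (𝓡 n) (𝓡 m) ∞ e) (φ : E n → M) (hφ : LD n φ 0) (v : E n) :
    ∃ (w : E n) (D : E n →L[ℝ] E m), HasStrictFDerivAt (fun a => e (φ a)) D 0 ∧
      D w = dm (E n) e (φ 0) v := by
  have h1 : ContMDiffAt (𝓡 n) (𝓡 m) ∞ (e ∘ φ) 0 := (he _).comp 0 hφ.contMDiffAt
  have h2 : ContDiffAt ℝ ∞ (e ∘ φ) 0 := contMDiffAt_iff_contDiffAt.1 h1
  have h3 : HasStrictFDerivAt (e ∘ φ) (fderiv ℝ (e ∘ φ) 0) 0 := h2.hasStrictFDerivAt (by simp)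
  have h4 : mfderiv (𝓡 n) (𝓡 m) (e ∘ φ) 0 =
      (mfderiv (𝓡 n) (𝓡 m) e (φ 0)).comp (mfderiv (𝓡 n) (𝓡 n) φ 0) :=
    mfderiv_comp (0 : E n) ((he _).mdifferentiableAt (by simp))
      (hφ.contMDiffAt.mdifferentiableAt (by simp))
  let A := hφ.mfderivToContinuousLinearEquiv (by simp)
  have hA : ∀ w, A w = mfderiv (𝓡 n) (𝓡 n) φ 0 w := fun w => rfl
  obtain ⟨w, hw⟩ := A.surjective v
  refine ⟨w, fderiv ℝ (e ∘ φ) 0, h3, ?_⟩
  rw [← mfderiv_eq_fderiv, h4]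
  show mfderiv (𝓡 n) (𝓡 m) e (φ 0) (mfderiv (𝓡 n) (𝓡 n) φ 0 w) = dm (E n) e (φ 0) v
  rw [← hA, hw]
  rfl

/-- the image of the whole tangent space -/
theorem exists_dir' {n m : ℕ} {M : Type} [TopologicalSpace M] [ChartedSpace (E n) M]
    {e : M → E m} (he : ContMDiff (𝓡 n) (𝓡 m) ∞ e) (φ : E n → M) (hφ : LD n φ 0)
    {Vs Vu : Submodule ℝ (E n)} {s u : E m}
    (hs : s ∈ Submodule.map (dm (E n) e (φ 0)).toLinearMap Vs)
    (hu : u ∈ Submodule.map (dm (E n) e (φ 0)).toLinearMap Vu) :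
    ∃ (w : E n) (D : E n →L[ℝ] E m), HasStrictFDerivAt (fun a => e (φ a)) D 0 ∧ D w = u + s := by
  obtain ⟨s', -, rfl⟩ := hs
  obtain ⟨u', -, rfl⟩ := hu
  obtain ⟨w, D, h1, h2⟩ := exists_dir he φ hφ (u' + s')
  exact ⟨w, D, h1, by rw [h2, map_add]; rfl⟩

theorem man_smooth {n : ℕ} {M : Type} [TopologicalSpace M] [T2Space M] [CompactSpace M]
    [ConnectedSpace M] [ChartedSpace (E n) M] [IsManifold (𝓡 n) ∞ M]
    (f : Diffeomorph 𝓘(ℝ, E n) 𝓘(ℝ, E n) M M 1)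
    (Es Eu : ∀ x : M, Submodule ℝ (TangentSpace 𝓘(ℝ, E n) x)) (hA : IsAnosov f Es Eu)
    (hG : GPS f.toHomeomorph) :
    ∃ q : E n → M, IsCoveringMap q ∧ Surjective q ∧ ∀ a, LD n q a := by
  obtain ⟨m, e, he, hemb, hinj⟩ := exists_embedding_euclidean_of_compact (I := 𝓘(ℝ, E n)) (M := M)
  let _ : MetricSpace M := hemb.isEmbedding.comapMetricSpace e
  have hiso : ∀ x y : M, dist x y = ‖e x - e y‖ := fun x y => dist_eq_norm (e x) (e y)
  have he1 : ContMDiff 𝓘(ℝ, E n) (𝓡 m) 1 e := he.of_le (by simp)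
  obtain ⟨N, ⟨S, hSg, hSe, hVs, hVu⟩, hN⟩ :=
    ((exists_sys_ev hiso he1 hinj f Es Eu hA).and (eventually_ge_atTop 1)).exists
  obtain ⟨c, hc⟩ := exists_LP S
  have hX : ULC M := ulc_of_charted (X := M) (E := E n)
  obtain ⟨c', hc', ⟨T⟩⟩ := iqs_of_gps hN hSg hc hX hG
  obtain ⟨q, hq, p, hp⟩ := S.exists_periodic
  have hfd : ∀ x, LD1 n (f.toHomeomorph : M → M) x := fun x => f.isLocalDiffeomorph x
  have hfd' : ∀ x, LD1 n (f.toHomeomorph.symm : M → M) x := fun x => f.symm.isLocalDiffeomorph x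
  have hg : ∀ x, LD1 n S.g x := by
    have e1 : (S.g : M → M) = f.toHomeomorph^[N] := by
      rw [hSg]
      rfl
    rw [e1]
    exact LD1_iterate hfd N
  have hg' : ∀ x, LD1 n S.g.symm x := by
    have e1 : (S.g.symm : M → M) = f.toHomeomorph.symm^[N] := by
      rw [hSg]
      rfl
    rw [e1]
    exact LD1_iterate hfd' N
  have hdir : ∀ φ : E n → M, LD n φ 0 → ∀ s ∈ S.Vs (φ 0), ∀ u ∈ S.Vu (φ 0),
      ∃ (w : E n) (D : E n →L[ℝ] E m), HasStrictFDerivAt (fun a => S.e (φ a)) D 0 ∧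
        D w = u + s := by
    intro φ hφ s hs u hu
    rw [hVs] at hs
    rw [hVu] at hu
    rw [hSe]
    exact exists_dir' he φ hφ hs hu
  obtain ⟨Q, hQ, hQ'⟩ := smooth_cover S hc T hc' hg hg' hdir hq hp
  exact ⟨Q, hQ, covering_surj hQ, hQ'⟩

end Pool.Agent.H827.AN
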