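import Pool.Graph.R_seed8.H789R2.GP.CovA
import Pool.Graph.R_seed8.TH289.K.A2
import Pool.Agent.H827.AN.Dir

/-!
# A metric on the leaf space for which the corner map is a local isometry
-/

set_option autoImplicit false
set_option linter.unusedSectionVars false

open Filter Topology Set Metric

namespace Pool.Agent.H827.AN

open Pool.Agent.H789R2.AN Pool.Agent.H789R2.GP Pool.Agent.TH289.K

variable {X : Type} [MetricSpace X] [CompactSpace X] {g : X ≃ₜ X} {c c' : ℝ}

theorem Nb_refl (T : QS g c') {p : X} {ε : ℝ} (hε : 0 ≤ ε) (z : Leaf g p) : Nb T ε z z :=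
  ⟨z.pr T, z.pr_spec T, fun k => by rw [dist_self]; exact hε, fun k => by rw [dist_self]; exact hε⟩

theorem Nb_small (h : LP g c) (T : QS g c') {p : X} {ε : ℝ} (hε : 0 < ε) (h2 : 2 * ε ≤ c)
    (ε₁ : ℝ) (hε₁ : 0 < ε₁) : ∃ r > 0, ∀ z z' : Leaf g p, Nb T ε z z' →
      dist (z.pr T) (z'.pr T) < r → Nb T ε₁ z z' := by
  obtain ⟨r, hr, hex⟩ := Nb_exists h T (p := p) (min ε₁ ε) (lt_min hε₁ hε)
  refine ⟨r, hr, fun z z' hn hd => ?_⟩
  obtain ⟨z'', h1, h3⟩ := hex z _ hd
  have h4 : z'' = z' := Nb_unique h T h2 (h3.mono (min_le_right _ _)) hn h1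
  rw [← h4]
  exact h3.mono (min_le_left _ _)

/-- a scale at which the neighbour relation is well behaved -/
structure Sc (T : QS g c') (p : X) (ε r : ℝ) : Prop where
  eps : 0 < ε
  pos : 0 < r
  ex : ∀ (z : Leaf g p) (y : X), dist (z.pr T) y < r → ∃ z' : Leaf g p, z'.pr T = y ∧ Nb T ε z z'
  uniq : ∀ z z' z'' : Leaf g p, Nb T ε z z' → Nb T ε z z'' → z'.pr T = z''.pr T → z' = z''
  symm : ∀ z z' : Leaf g p, Nb T ε z z' → dist (z.pr T) (z'.pr T) < r → Nb T ε z' z
  trans : ∀ z z' z'' : Leaf g p, Nb T ε z z' → dist (z.pr T) (z'.pr T) < r → Nb T ε z' z'' →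
    dist (z'.pr T) (z''.pr T) < r → Nb T ε z z''

theorem exists_Sc (h : LP g c) (T : QS g c') (p : X) {ε : ℝ} (hε : 0 < ε) (h2 : 2 * ε ≤ c) :
    ∃ r > 0, ∀ r' > 0, r' ≤ r → Sc T p ε r' := by
  obtain ⟨r1, hr1, hex⟩ := Nb_exists h T (p := p) ε hε
  obtain ⟨ε3, hε3, hsy⟩ := Nb_symm h T (p := p) ε hε
  obtain ⟨ε4, hε4, htr⟩ := Nb_trans h T (p := p) ε hε
  obtain ⟨r3, hr3, h3⟩ := Nb_small h T (p := p) hε h2 ε3 hε3
  obtain ⟨r4, hr4, h4⟩ := Nb_small h T (p := p) hε h2 ε4 hε4
  refine ⟨min r1 (min r3 r4), by positivity, fun r' hr' hle => ?_⟩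
  have l1 : r' ≤ r1 := hle.trans (min_le_left _ _)
  have l3 : r' ≤ r3 := hle.trans ((min_le_right _ _).trans (min_le_left _ _))
  have l4 : r' ≤ r4 := hle.trans ((min_le_right _ _).trans (min_le_right _ _))
  refine ⟨hε, hr', fun z y hd => hex z y (hd.trans_le l1),
    fun z z' z'' h1 h1' hp => Nb_unique h T h2 h1 h1' hp,
    fun z z' hn hd => hsy z z' (h3 z z' hn (hd.trans_le l3)),
    fun z z' z'' hn hd hn' hd' =>
      htr z z' z'' (h4 z z' hn (hd.trans_le l4)) (h4 z' z'' hn' (hd'.trans_le l4))⟩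

/-- the leaf space, with another metric -/
@[ext]
structure LZ (g : X ≃ₜ X) (p : X) where
  z : Leaf g p

open Classical in
/-- the distance -/
noncomputable def dst (T : QS g c') {p : X} (ε r : ℝ) (z z' : Leaf g p) : ℝ :=
  if Nb T ε z z' ∧ dist (z.pr T) (z'.pr T) < r then dist (z.pr T) (z'.pr T) else r

theorem dst_lt {T : QS g c'} {p : X} {ε r : ℝ} {z z' : Leaf g p} (h : dst T ε r z z' < r) :
    Nb T ε z z' ∧ dst T ε r z z' = dist (z.pr T) (z'.pr T) := by
  unfold dst at h ⊢
  split_ifs at h ⊢ with h1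
  · exact ⟨h1.1, rfl⟩
  · exact absurd h (lt_irrefl _)

theorem dst_eq {T : QS g c'} {p : X} {ε r : ℝ} {z z' : Leaf g p} (h : Nb T ε z z')
    (hd : dist (z.pr T) (z'.pr T) < r) : dst T ε r z z' = dist (z.pr T) (z'.pr T) := by
  unfold dst
  rw [if_pos ⟨h, hd⟩]

theorem dst_le {T : QS g c'} {p : X} {ε r : ℝ} (z z' : Leaf g p) : dst T ε r z z' ≤ r := by
  unfold dst
  split_ifs with h1
  · exact h1.2.le
  · exact le_rfl

theorem dst_nonneg {T : QS g c'} {p : X} {ε r : ℝ} (h : Sc T p ε r) (z z' : Leaf g p) :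
    0 ≤ dst T ε r z z' := by
  unfold dst
  split_ifs with h1
  · exact dist_nonneg
  · exact h.pos.le

/-- the metric -/
@[reducible]
noncomputable def Sc.met {T : QS g c'} {p : X} {ε r : ℝ} (h : Sc T p ε r) :
    MetricSpace (LZ g p) where
  dist a b := dst T ε r a.z b.z
  dist_self a := by
    show dst T ε r a.z a.z = 0
    rw [dst_eq (Nb_refl T h.eps.le _) (by rw [dist_self]; exact h.pos), dist_self]
  dist_comm a b := by
    have key : ∀ a b : Leaf g p, dst T ε r b a ≤ dst T ε r a b := by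
      intro a b
      by_cases hab : dst T ε r a b < r
      · obtain ⟨h1, h2⟩ := dst_lt hab
        rw [h2] at hab ⊢
        rw [dst_eq (h.symm _ _ h1 hab) (by rwa [dist_comm]), dist_comm]
      · exact (dst_le _ _).trans (not_lt.1 hab)
    exact le_antisymm (key _ _) (key _ _)
  dist_triangle a b d := by
    show dst T ε r a.z d.z ≤ dst T ε r a.z b.z + dst T ε r b.z d.z
    by_cases hs : dst T ε r a.z b.z + dst T ε r b.z d.z < r
    · have n1 := dst_nonneg h a.z b.z
      have n2 := dst_nonneg h b.z d.z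
      obtain ⟨h1, h2⟩ := dst_lt (show dst T ε r a.z b.z < r by linarith)
      obtain ⟨h3, h4⟩ := dst_lt (show dst T ε r b.z d.z < r by linarith)
      rw [h2, h4] at hs ⊢
      have h5 := dist_triangle (a.z.pr T) (b.z.pr T) (d.z.pr T)
      have n3 : 0 ≤ dist (a.z.pr T) (b.z.pr T) := dist_nonneg
      have n4 : 0 ≤ dist (b.z.pr T) (d.z.pr T) := dist_nonneg
      rw [dst_eq (h.trans _ _ _ h1 (by linarith) h3 (by linarith)) (by linarith)]
      exact h5
    · exact (dst_le _ _).trans (not_lt.1 hs)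
  eq_of_dist_eq_zero := by
    intro a b hab
    change dst T ε r a.z b.z = 0 at hab
    have h0 : dst T ε r a.z b.z < r := by rw [hab]; exact h.pos
    obtain ⟨h1, h2⟩ := dst_lt h0
    rw [h2] at hab
    exact LZ.ext (h.uniq _ _ _ (Nb_refl T h.eps.le _) h1 (dist_eq_zero.1 hab))

/-- a map which is an isometry from balls onto balls -/
structure Sheet (Z X : Type) [MetricSpace Z] [MetricSpace X] (π : Z → X) (r : ℝ) : Prop where
  pos : 0 < r
  iso : ∀ z z', dist z z' < r → dist (π z) (π z') = dist z z'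
  ex : ∀ z y, dist (π z) y < r → ∃ z', π z' = y ∧ dist z z' = dist (π z) y

theorem Sc.sheet {T : QS g c'} {p : X} {ε r : ℝ} (h : Sc T p ε r) :
    @Sheet (LZ g p) X h.met _ (fun a => a.z.pr T) r := by
  letI := h.met
  refine ⟨h.pos, fun a b hab => ?_, fun a y hy => ?_⟩
  · exact (dst_lt hab).2.symm
  · obtain ⟨z', h1, h2⟩ := h.ex a.z y hy
    refine ⟨⟨z'⟩, h1, ?_⟩
    show dst T ε r a.z z' = _
    rw [dst_eq h2 (by rw [h1]; exact hy), h1]

namespace Sheet

variable {Z Y : Type} [MetricSpace Z] [MetricSpace Y] {π : Z → Y} {r : ℝ}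

theorem inj (h : Sheet Z Y π r) {z z' z'' : Z} (h1 : dist z z' < r / 2) (h2 : dist z z'' < r / 2)
    (he : π z' = π z'') : z' = z'' := by
  have h3 : dist z' z'' < r := by
    have := dist_triangle_left z' z'' z
    linarith
  have h4 := h.iso _ _ h3
  rw [he, dist_self] at h4
  exact dist_eq_zero.1 h4.symm

theorem continuous (h : Sheet Z Y π r) : Continuous π := by
  rw [Metric.continuous_iff]
  intro b ε hε
  refine ⟨min ε r, lt_min hε h.pos, fun a ha => ?_⟩
  rw [h.iso _ _ (ha.trans_le (min_le_right _ _))]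
  exact ha.trans_le (min_le_left _ _)

theorem isCompact_closedBall [CompactSpace Y] (h : Sheet Z Y π r) (z : Z) {a : ℝ} (ha : a < r / 2) :
    IsCompact (closedBall z a) := by
  have hr := h.pos
  have hch : ∀ y : closedBall (π z) a, ∃ z', π z' = y ∧ dist z z' = dist (π z) y := by
    intro y
    apply h.ex
    have := y.2
    rw [mem_closedBall, dist_comm] at this
    linarith
  choose σ h1 h2 using hch
  have hiso : Isometry σ := by
    refine Isometry.of_dist_eq fun y y' => ?_
    have a1 := y.2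
    have a2 := y'.2
    rw [mem_closedBall, dist_comm] at a1 a2
    have h3 : dist (σ y) (σ y') < r := by
      have := dist_triangle_left (σ y) (σ y') z
      rw [h2, h2] at this
      linarith
    rw [← h.iso _ _ h3, h1, h1]
    rfl
  have hK : CompactSpace (closedBall (π z) a) :=
    isCompact_iff_compactSpace.1 (isClosed_closedBall.isCompact)
  have h3 : closedBall z a = range σ := by
    ext z'
    rw [mem_closedBall, dist_comm]
    constructor
    · intro hz
      have h4 : dist (π z) (π z') = dist z z' := h.iso _ _ (by linarith)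
      refine ⟨⟨π z', ?_⟩, ?_⟩
      · rw [mem_closedBall, dist_comm, h4]
        exact hz
      · refine h.inj (z := z) ?_ (by linarith) (h1 _)
        rw [h2]
        simp only
        rw [h4]
        linarith
    · rintro ⟨y, rfl⟩
      rw [h2]
      have a1 := y.2
      rw [mem_closedBall, dist_comm] at a1
      exact a1
  rw [h3]
  exact isCompact_range hiso.continuous

end Sheet

end Pool.Agent.H827.AN
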