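import Pool.Graph.R_pool_sql_team_seeded_64922ed1.X175.SH.MB7
import Pool.Graph.R_pool_sql_team_seeded_63374d34.N550.KH.Supp

/-!
# Engulfing by pushing down
-/

set_option autoImplicit false
set_option linter.unusedSectionVars false

open Set Filter Topology Metric Function
open scoped Manifold ContDiff NNReal

noncomputable section

namespace Pool.Agent.H827.AN

open Pool.Agent.Y522 Pool.Agent.N550.KH Pool.Agent.X175.SH
open Pool.Agent.Y784.SH (Dif dif_of_lip)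

/-- small shifts -/
theorem exists_shift {n : ℕ} (w : E n) {β : ℝ} (hβ : 0 < β) : ∃ χ : E n → ℝ,
    IsDf n (fun y => y + χ y • w) ∧ (∀ y, 0 ≤ χ y) ∧ (∀ y, χ y < β) ∧
      (∀ y, χ y ≠ 0 → y ∈ ball (0 : E n) β) ∧ ∀ᶠ y in 𝓝 (0 : E n), 0 < χ y := by
  let b : ContDiffBump (0 : E n) := ⟨β / 4, β / 2, by positivity, by linarith⟩
  obtain ⟨K, hK⟩ := b.contDiff.lipschitzWith_of_hasCompactSupport (n := ∞) b.hasCompactSupport
    (by simp)
  have hK0 : (0 : ℝ) ≤ K := K.2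
  have hw0 : 0 ≤ ‖w‖ := norm_nonneg w
  set q : ℝ := min (β / 2) (1 / (2 * ((K + 1) * (‖w‖ + 1)))) with hq
  have hq0 : 0 < q := by positivity
  have hq1 : q ≤ β / 2 := min_le_left _ _
  have hq2 : q * (K * ‖w‖) < 1 := by
    have h1 : q ≤ 1 / (2 * ((K + 1) * (‖w‖ + 1))) := min_le_right _ _
    rw [le_div_iff₀ (by positivity)] at h1
    have h2 : q * (2 * ((K + 1) * (‖w‖ + 1))) =
      2 * (q * (K * ‖w‖)) + 2 * (q * K) + 2 * (q * ‖w‖) + 2 * q := by ring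
    have h3 : 0 ≤ q * K := by positivity
    have h4 : 0 ≤ q * ‖w‖ := by positivity
    linarith
  have hu : ContDiff ℝ ∞ (fun x : E n => (q * b x) • w) :=
    (contDiff_const.mul b.contDiff).smul contDiff_const
  have hl : LipschitzWith (Real.toNNReal (q * (K * ‖w‖))) (fun x : E n => (q * b x) • w) := by
    refine LipschitzWith.of_dist_le_mul fun x y => ?_
    have h1 : ((Real.toNNReal (q * (K * ‖w‖)) : ℝ≥0) : ℝ) = q * (K * ‖w‖) :=
      Real.coe_toNNReal _ (by positivity)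
    have h2 := hK.dist_le_mul x y
    rw [Real.dist_eq] at h2
    rw [dist_eq_norm, ← sub_smul, norm_smul, h1, ← mul_sub, norm_mul, Real.norm_eq_abs,
      Real.norm_eq_abs, abs_of_pos hq0]
    have h3 : q * |b x - b y| * ‖w‖ ≤ q * (K * dist x y) * ‖w‖ :=
      mul_le_mul_of_nonneg_right (mul_le_mul_of_nonneg_left h2 hq0.le) hw0
    linarith
  have hlt : Real.toNNReal (q * (K * ‖w‖)) < 1 := by
    rw [Real.toNNReal_lt_one]
    exact hq2
  have hD := dif_of_lip hu hlt hl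
  refine ⟨fun y => q * b y, ⟨hD.1, hD.2⟩, fun y => mul_nonneg hq0.le b.nonneg, fun y => ?_,
    fun y hy => ?_, ?_⟩
  · have h1 : q * b y ≤ q * 1 := mul_le_mul_of_nonneg_left b.le_one hq0.le
    show q * b y < β
    linarith
  · by_contra hcon
    apply hy
    rw [mem_ball, not_lt] at hcon
    have h1 : b y = 0 := b.zero_of_le_dist (by
      show β / 2 ≤ dist y 0
      linarith)
    show q * b y = 0
    rw [h1, mul_zero]
  · filter_upwards [ball_mem_nhds (0 : E n) (show 0 < β / 4 by positivity)] with y hy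
    have h1 : b y = 1 := b.one_of_mem_closedBall (ball_subset_closedBall hy)
    show 0 < q * b y
    rw [h1, mul_one]
    exact hq0

/-- `K` moves points down only -/
def Down {Z : Type} (ρ Ψ : Z → ℝ) (K : Z → Z) : Prop :=
  ∀ x, K x = x ∨ (ρ (K x) < ρ x ∧ Ψ (K x) ≤ Ψ x)

theorem Down.le {Z : Type} {ρ Ψ : Z → ℝ} {K : Z → Z} (h : Down ρ Ψ K) (x : Z) :
    ρ (K x) ≤ ρ x ∧ Ψ (K x) ≤ Ψ x := by
  rcases h x with h1 | h1
  · rw [h1]
    exact ⟨le_rfl, le_rfl⟩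
  · exact ⟨h1.1.le, h1.2⟩

theorem Down.comp {Z : Type} {ρ Ψ : Z → ℝ} {K K' : Z → Z} (h : Down ρ Ψ K) (h' : Down ρ Ψ K') :
    Down ρ Ψ (fun x => K (K' x)) := by
  intro x
  show K (K' x) = x ∨ (ρ (K (K' x)) < ρ x ∧ Ψ (K (K' x)) ≤ Ψ x)
  rcases h' x with h1 | h1
  · rw [h1]
    exact h x
  · have h2 := h.le (K' x)
    exact Or.inr ⟨h2.1.trans_lt h1.1, h2.2.trans h1.2⟩

theorem Down.comp_ne {Z : Type} {ρ Ψ : Z → ℝ} {K K' : Z → Z} (h : Down ρ Ψ K)
    (h' : Down ρ Ψ K') {x : Z} (hx : K' x ≠ x ∨ K x ≠ x) : K (K' x) ≠ x := by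
  rcases h' x with h1 | h1
  · rcases hx with hx | hx
    · exact absurd h1 hx
    · rwa [h1]
  · intro h3
    have h2 := (h.le (K' x)).1
    rw [h3] at h2
    exact absurd h1.1 (not_lt.2 h2)

theorem isDf_comp {n : ℕ} {Z : Type} [TopologicalSpace Z] [ChartedSpace (E n) Z] {K K' : Z → Z}
    (h : IsDf n K) (h' : IsDf n K') : IsDf n (fun x => K (K' x)) :=
  ⟨h.1.comp h'.1, fun x => LD.comp_fun (h.2 _) (h'.2 x)⟩

theorem isDf_id {n : ℕ} {Z : Type} [TopologicalSpace Z] [ChartedSpace (E n) Z] :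
    IsDf n (fun x : Z => x) := ⟨bijective_id, LD.id⟩

theorem isDf_iterate {n : ℕ} {Z : Type} [TopologicalSpace Z] [ChartedSpace (E n) Z] {K : Z → Z}
    (h : IsDf n K) (N : ℕ) : IsDf n (K^[N]) := by
  induction N with
  | zero => exact isDf_id
  | succ N ih =>
    rw [Function.iterate_succ']
    exact isDf_comp (K := K) (K' := K^[N]) h ih

/-- pull back a cell -/
theorem cell_pull {n : ℕ} {Z : Type} [TopologicalSpace Z] [ChartedSpace (E n) Z] {g : E n → Z}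
    (hg : Cell n g) {K : Z → Z} (hK : IsDf n K) {A : Set Z} (hA : ∀ x ∈ A, K x ∈ range g) :
    ∃ g' : E n → Z, Cell n g' ∧ A ⊆ range g' := by
  set J := Function.surjInv hK.1.2 with hJ
  have h1 : ∀ x, K (J x) = x := Function.surjInv_eq hK.1.2
  have h2 : ∀ x, J (K x) = x := fun x => hK.1.1 (h1 _)
  refine ⟨fun a => J (g a), ⟨?_, ?_⟩, ?_⟩
  · intro a b hab
    have := congrArg K hab
    simp only [h1] at this
    exact hg.inj this
  · intro a
    exact LD.comp_fun (LD.inverse_bij hK.1 hK.2 h2 _) (hg.ld a)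
  · intro x hx
    obtain ⟨a, ha⟩ := hA x hx
    exact ⟨a, by
      show J (g a) = x
      rw [ha, h2]⟩

/-- pushes supported in a cell -/
theorem push {n : ℕ} {Z : Type} [TopologicalSpace Z] [T2Space Z] [ChartedSpace (E n) Z]
    {h : E n → Z} (hh : Cell n h) (ρ Ψ : Z → ℝ) (w : E n) {β : ℝ} (hβ : 0 < β)
    (hdec : ∀ a ∈ ball (0 : E n) β, ∀ t, 0 < t → t < β →
      ρ (h (a + t • w)) < ρ (h a) ∧ Ψ (h (a + t • w)) ≤ Ψ (h a)) :
    ∃ K : Z → Z, IsDf n K ∧ Down ρ Ψ K ∧ ∀ᶠ x in 𝓝 (h 0), K x ≠ x := by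
  obtain ⟨χ, h1, h2, h3, h4, h5⟩ := exists_shift w hβ
  obtain ⟨K, hK, hK1, hK2⟩ := Supp.main n Z h hh.inj hh.ld _ h1 ⟨β, fun z hz => by
    by_contra hcon
    have : χ z ≠ 0 := by
      intro h0
      apply hcon
      show z + χ z • w = z
      rw [h0, zero_smul, add_zero]
    have := h4 z this
    rw [mem_ball_zero_iff] at this
    linarith⟩
  have key : ∀ a, 0 < χ a → ρ (K (h a)) < ρ (h a) ∧ Ψ (K (h a)) ≤ Ψ (h a) := by
    intro a ha
    rw [hK1]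
    exact hdec a (h4 a ha.ne') _ ha (h3 a)
  refine ⟨K, hK, ?_, ?_⟩
  · intro x
    by_cases hx : x ∈ range h
    · obtain ⟨a, rfl⟩ := hx
      rcases (h2 a).lt_or_eq with h6 | h6
      · exact Or.inr (key a h6)
      · left
        rw [hK1, ← h6, zero_smul, add_zero]
    · exact Or.inl (hK2 x hx)
  · have h6 := (hh.ld 0).image_mem_nhds h5
    filter_upwards [h6] with x hx
    obtain ⟨a, ha, rfl⟩ := hx
    intro hcon
    have := (key a ha).1
    rw [hcon] at this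
    exact lt_irrefl _ this

/-- engulfing -/
theorem ael {n : ℕ} {Z : Type} [TopologicalSpace Z] [T2Space Z] [ChartedSpace (E n) Z]
    (ρ Ψ : Z → ℝ) (hρ : Continuous ρ) {Reg : Set Z} (hReg : IsCompact Reg)
    (hΨ : ∀ x ∈ Reg, ∀ y, Ψ y ≤ Ψ x → y ∈ Reg) {g : E n → Z} (hg : Cell n g)
    (h0 : ∀ x ∈ Reg, ρ x ≤ 0 → x ∈ range g)
    (hp : ∀ x ∈ Reg, 0 < ρ x → ∃ K, IsDf n K ∧ Down ρ Ψ K ∧ ∀ᶠ y in 𝓝 x, K y ≠ y) :
    ∃ g' : E n → Z, Cell n g' ∧ Reg ⊆ range g' := by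
  have hC : IsCompact (Reg \ range g) := hReg.diff hg.oe.isOpen_range
  rcases (Reg \ range g).eq_empty_or_nonempty with hemp | hne
  · exact ⟨g, hg, sdiff_eq_empty.1 hemp⟩
  obtain ⟨x₀, hx₀, hmin⟩ := hC.exists_isMinOn hne hρ.continuousOn
  set τ := ρ x₀ with hτ
  have hτ0 : 0 < τ := by
    by_contra hcon
    exact hx₀.2 (h0 x₀ hx₀.1 (not_lt.1 hcon))
  have hin : ∀ x ∈ Reg, ρ x < τ → x ∈ range g := by
    intro x hx hlt
    by_contra hcon
    have : τ ≤ ρ x := hmin ⟨hx, hcon⟩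
    linarith
  have hD : IsCompact (Reg ∩ {x | τ ≤ ρ x}) :=
    hReg.inter_right (isClosed_le continuous_const hρ)
  set D := Reg ∩ {x | τ ≤ ρ x} with hDdef
  have hch : ∀ x ∈ D, ∃ K, IsDf n K ∧ Down ρ Ψ K ∧ ∀ᶠ y in 𝓝 x, K y ≠ y := fun x hx =>
    hp x hx.1 (hτ0.trans_le hx.2)
  have hloc : ∀ x ∈ D, ∃ t ∈ 𝓝[D] x, ∃ K, IsDf n K ∧ Down ρ Ψ K ∧ ∀ y ∈ t, K y ≠ y := by
    intro x hx
    obtain ⟨K, h1, h2, h3⟩ := hch x hx
    exact ⟨{y | K y ≠ y}, mem_nhdsWithin_of_mem_nhds h3, K, h1, h2, fun y hy => hy⟩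
  obtain ⟨c, hc1, hc2, hc3⟩ : ∃ K, IsDf n K ∧ Down ρ Ψ K ∧ ∀ y ∈ D, K y ≠ y := by
    refine hD.induction_on (p := fun s => ∃ K, IsDf n K ∧ Down ρ Ψ K ∧ ∀ y ∈ s, K y ≠ y)
      ?_ ?_ ?_ hloc
    · exact ⟨fun x => x, isDf_id, fun x => Or.inl rfl, fun y hy => absurd hy (notMem_empty _)⟩
    · rintro s t hst ⟨K, h1, h2, h3⟩
      exact ⟨K, h1, h2, fun y hy => h3 y (hst hy)⟩
    · rintro s t ⟨K, h1, h2, h3⟩ ⟨K', h1', h2', h3'⟩
      refine ⟨fun x => K (K' x), isDf_comp h1 h1', h2.comp h2', fun y hy => ?_⟩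
      apply h2.comp_ne h2'
      rcases hy with hy | hy
      · exact Or.inr (h3 y hy)
      · exact Or.inl (h3' y hy)
  have hccont : Continuous c := continuous_iff_continuousAt.2 fun x => (hc1.2 x).continuousAt
  obtain ⟨μ, hμ, hμ'⟩ : ∃ μ > 0, ∀ x ∈ D, ρ (c x) ≤ ρ x - μ := by
    rcases D.eq_empty_or_nonempty with hemp | hne'
    · exact ⟨1, one_pos, fun x hx => by rw [hemp] at hx; exact absurd hx (notMem_empty _)⟩
    · obtain ⟨x₁, hx₁, hm⟩ := hD.exists_isMinOn hne'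
        (hρ.sub (hρ.comp hccont)).continuousOn
      refine ⟨ρ x₁ - ρ (c x₁), ?_, fun x hx => ?_⟩
      · rcases hc2 x₁ with h1 | h1
        · exact absurd h1 (hc3 x₁ hx₁)
        · exact sub_pos.2 h1.1
      · have : ρ x₁ - ρ (c x₁) ≤ ρ x - ρ (c x) := hm hx
        linarith
  obtain ⟨B, hB⟩ := (hReg.image hρ).bddAbove
  have hB' : ∀ x ∈ Reg, ρ x ≤ B := fun x hx => hB ⟨x, hx, rfl⟩
  have hit : ∀ x ∈ Reg, ∀ k : ℕ, c^[k] x ∈ Reg ∧ (ρ (c^[k] x) < τ ∨ ρ (c^[k] x) ≤ B - k * μ) := by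
    intro x hx k
    induction k with
    | zero => exact ⟨hx, Or.inr (by simpa using hB' x hx)⟩
    | succ k ih =>
      rw [Function.iterate_succ_apply']
      obtain ⟨h1, h2⟩ := ih
      have h3 := hc2.le (c^[k] x)
      refine ⟨hΨ _ h1 _ h3.2, ?_⟩
      by_cases h4 : ρ (c^[k] x) < τ
      · exact Or.inl (h3.1.trans_lt h4)
      · right
        have h5 := hμ' _ ⟨h1, not_lt.1 h4⟩
        have h6 := h2.resolve_left h4
        push_cast
        linarith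
  obtain ⟨N, hN⟩ := exists_nat_gt ((B - τ) / μ)
  rw [div_lt_iff₀ hμ] at hN
  refine cell_pull hg (isDf_iterate hc1 N) fun x hx => ?_
  obtain ⟨h1, h2⟩ := hit x hx N
  refine hin _ h1 ?_
  rcases h2 with h2 | h2
  · exact h2
  · linarith

end Pool.Agent.H827.AN
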