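import Pool.Agent.H827.AN.Desc2
import Pool.Graph.R_seed8.TH289.K.A6

/-!
# The stable leaf of the base point
-/

set_option autoImplicit false
set_option linter.unusedSectionVars false

open Filter Topology Set Metric Function

namespace Pool.Agent.H827.AN

open Pool.Agent.H721R2 Pool.Agent.H789R2.AN Pool.Agent.H789R2.GP Pool.Agent.TH289.K

variable {X : Type} [MetricSpace X] [CompactSpace X] {g : X ≃ₜ X} {c c' : ℝ}

/-- the stable leaf of the base point -/
def LL (g : X ≃ₜ X) (p : X) : Set (LZ g p) := {a | a.z.u = p}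

theorem pr_of_mem (T : QS g c') {p : X} {a : LZ g p} (ha : a ∈ LL g p) : a.z.pr T = a.z.s := by
  apply Leaf.pr_eq
  have h := qs_degS T a.z.hs
  have hu : a.z.u = p := ha
  rw [hu]
  exact h

theorem mem_of_pr (T : QS g c') {p : X} {a : LZ g p} (ha : a.z.pr T = a.z.s) : a ∈ LL g p := by
  have h1 := a.z.pr_spec T
  rw [ha] at h1
  have h2 := qs_degS T a.z.hs
  exact T.unique _ _ _ _ _ (T.flipS _ _ _ _ h1) (T.flipS _ _ _ _ h2)

theorem nb_of_mem (T : QS g c') {p : X} {ε : ℝ} {a b : LZ g p} (ha : a ∈ LL g p)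
    (h : Nb T ε a.z b.z) : SR g ε a.z.s b.z.s ∧ SR g.symm ε b.z.s (b.z.pr T) := by
  obtain ⟨w, hw, h2, h3⟩ := h
  have hu : a.z.u = p := ha
  rw [hu] at hw
  have e1 : w = b.z.s := T.unique _ _ _ _ _ hw (qs_degS T b.z.hs)
  rw [pr_of_mem T ha, e1] at h2
  rw [e1] at h3
  exact ⟨h2, h3⟩

/-- the point of the stable leaf -/
def mkL {p : X} (q : X) (hq : WS g p q) : LZ g p := ⟨⟨p, q, WS.refl _ p, hq⟩⟩

theorem mkL_mem {p q : X} (hq : WS g p q) : mkL q hq ∈ LL g p := rfl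

theorem pr_mkL (T : QS g c') {p q : X} (hq : WS g p q) : (mkL q hq).z.pr T = q :=
  pr_of_mem T (mkL_mem hq)

theorem SR_self {X : Type} [MetricSpace X] {g : X ≃ₜ X} {ε : ℝ} (hε : 0 ≤ ε) (x : X) :
    SR g ε x x := fun k => by
  rw [dist_self]; exact hε

theorem nb_mkL (T : QS g c') {p q : X} (hq : WS g p q) {ε : ℝ} {b : LZ g p}
    (h1 : SR g ε q b.z.s) (h2 : SR g.symm ε b.z.s (b.z.pr T)) : Nb T ε (mkL q hq).z b.z := by
  refine ⟨b.z.s, qs_degS T b.z.hs, ?_, h2⟩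
  rw [pr_mkL T hq]
  exact h1

/-- the stable leaf of the base point is a leaf -/
theorem exists_leafL {F : Type} [NormedAddCommGroup F] [NormedSpace ℝ F] (S : HypSys X F)
    (h : LP S.g c) (T : QS S.g c') {p : X} {ε r εd : ℝ} (hsc : Sc T p ε r) (h2 : 2 * ε ≤ c)
    (hd : ε ≤ εd) : ∃ r₂ > 0, r₂ ≤ r / 100 ∧ ∃ ε₁ : ℝ, @LeafL X F _ _ _ S (LZ S.g p) hsc.met
      (fun a => a.z.pr T) r εd r₂ ε₁ (LL S.g p) := by
  letI := hsc.met
  have hr := hsc.pos
  have hε := hsc.eps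
  have hdist : ∀ a b : LZ S.g p, dist a b = dst T ε r a.z b.z := fun a b => rfl
  obtain ⟨r1, hr1, hsm⟩ := Nb_small h T (p := p) hε h2 (min ε (r / 32)) (by positivity)
  refine ⟨min r1 (r / 100), by positivity, min_le_right _ _, min ε (r / 32), ?_⟩
  refine ⟨?_, ⟨mkL p (WS.refl _ p), mkL_mem _⟩, by positivity, by positivity, ?_, ?_, ?_⟩
  · -- closed
    rw [← isOpen_compl_iff, Metric.isOpen_iff]
    intro a ha
    have hne : a.z.pr T ≠ a.z.s := fun h0 => ha (mem_of_pr T h0)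
    have hpos : 0 < dist a.z.s (a.z.pr T) := dist_pos.2 (Ne.symm hne)
    obtain ⟨r3, hr3, hsm3⟩ := Nb_small h T (p := p) hε h2 (dist a.z.s (a.z.pr T) / 2) (by positivity)
    refine ⟨min r r3, by positivity, fun b hb hbL => ?_⟩
    rw [mem_ball, hdist] at hb
    obtain ⟨h4, h5⟩ := dst_lt (hb.trans_le (min_le_left _ _))
    rw [h5] at hb
    obtain ⟨-, h6⟩ := nb_of_mem T hbL (hsm3 _ _ h4 (hb.trans_le (min_le_right _ _)))
    have h7 := h6.dist12
    linarith
  · intro w hw w' hw' hww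
    rw [hdist] at hww
    obtain ⟨h4, -⟩ := dst_lt hww
    obtain ⟨h5, -⟩ := nb_of_mem T hw h4
    show SR S.g εd (w.z.pr T) (w'.z.pr T)
    rw [pr_of_mem T hw, pr_of_mem T hw']
    exact h5.mono hd
  · intro w hw b hwb
    rw [hdist] at hwb
    have hlt : dst T ε r w.z b.z < r := hwb.trans_le ((min_le_right _ _).trans (by linarith))
    obtain ⟨h4, h5⟩ := dst_lt hlt
    rw [h5] at hwb
    obtain ⟨h6, h7⟩ := nb_of_mem T hw (hsm _ _ h4 (hwb.trans_le (min_le_left _ _)))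
    have h8 : dist b.z.s (b.z.pr T) ≤ r / 32 := h7.dist12.trans (min_le_right _ _)
    have h9 : Nb T ε (mkL b.z.s b.z.hs).z b.z :=
      nb_mkL T b.z.hs (SR_self hε.le _) (h7.mono (min_le_left _ _))
    refine ⟨mkL b.z.s b.z.hs, mkL_mem _, ?_, ?_, ?_⟩
    · rw [hdist, dst_eq h9 (by rw [pr_mkL]; linarith), pr_mkL]
      linarith
    · show SR S.g εd (w.z.pr T) ((mkL b.z.s b.z.hs).z.pr T)
      rw [pr_of_mem T hw, pr_mkL]
      exact h6.mono ((min_le_left _ _).trans hd)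
    · show SR S.g.symm εd ((mkL b.z.s b.z.hs).z.pr T) (b.z.pr T)
      rw [pr_mkL]
      exact h7.mono ((min_le_left _ _).trans hd)
  · intro w hw y hy
    have hy' : SR S.g (min ε (r / 32)) (w.z.pr T) y := hy
    rw [pr_of_mem T hw] at hy'
    have hws : WS S.g w.z.s y := WS_of_SR12 h (hy'.mono ((min_le_left _ _).trans (by linarith)))
    have hq : WS S.g p y := w.z.hs.trans hws
    have h4 : Nb T ε w.z (mkL y hq).z := by
      refine ⟨y, ?_, ?_, ?_⟩
      · have hu : w.z.u = p := hw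
        rw [hu]
        exact qs_degS T hq
      · rw [pr_of_mem T hw]
        exact hy'.mono (min_le_left _ _)
      · rw [pr_mkL]
        exact SR_self hε.le _
    have h5 : dist (w.z.pr T) y < r := by
      rw [pr_of_mem T hw]
      have := hy'.dist12.trans (min_le_right _ _)
      linarith
    refine ⟨mkL y hq, mkL_mem _, pr_mkL T hq, ?_⟩
    rw [hdist, dst_eq h4 (by rw [pr_mkL]; exact h5), pr_mkL]

end Pool.Agent.H827.AN
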