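import Pool.Agent.H827.AN.Sys1

/-!
# Lifts of the iterates
-/

set_option autoImplicit false
set_option linter.unusedSectionVars false
set_option linter.style.haveILetI false

open Filter Topology Set Metric Function

namespace Pool.Agent.H827.AN

open Pool.Agent.H721R2 Pool.Agent.H789R2.AN Pool.Agent.H789R2.GP Pool.Agent.TH289.K

variable {X : Type} [MetricSpace X] [CompactSpace X] {g : X ≃ₜ X} {c c' : ℝ}

omit [CompactSpace X] in
theorem symm_fix {p : X} {k : ℕ} (hk : g^[k] p = p) : g.symm^[k] p = p := by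
  have := iterL g k p
  rwa [hk] at this

/-- the lift of `g^k` -/
def upZ {p : X} {k : ℕ} (hk : g^[k] p = p) (a : LZ g p) : LZ g p :=
  ⟨⟨g^[k] a.z.u, g^[k] a.z.s, by
    have := WS.mapIter (g := g.symm) (φ := g) (fun x => by simp) a.z.hu k
    rwa [hk] at this, by
    have := (WS.iter k).2 a.z.hs
    rwa [hk] at this⟩⟩

/-- the lift of `g^(-k)` -/
def dnZ {p : X} {k : ℕ} (hk : g^[k] p = p) (a : LZ g p) : LZ g p :=
  ⟨⟨g.symm^[k] a.z.u, g.symm^[k] a.z.s, by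
    have := (WS.iter k).2 a.z.hu
    rwa [symm_fix hk] at this, by
    have := WS.mapIter (g := g) (φ := g.symm) (fun x => by simp) a.z.hs k
    rwa [symm_fix hk] at this⟩⟩

theorem up_dn {p : X} {k : ℕ} (hk : g^[k] p = p) (a : LZ g p) : upZ hk (dnZ hk a) = a := by
  apply LZ.ext
  apply Leaf.ext
  · exact iterR g k _
  · exact iterR g k _

theorem dn_up {p : X} {k : ℕ} (hk : g^[k] p = p) (a : LZ g p) : dnZ hk (upZ hk a) = a := by
  apply LZ.ext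
  apply Leaf.ext
  · exact iterL g k _
  · exact iterL g k _

theorem pr_up (T : IQS g c') {p : X} {k : ℕ} (hk : g^[k] p = p) (a : LZ g p) :
    (upZ hk a).z.pr T.toQS = g^[k] (a.z.pr T.toQS) := by
  apply Leaf.pr_eq
  have h := T.iterF (a.z.pr_spec T.toQS) k
  rwa [hk] at h

theorem pr_dn (T : IQS g c') {p : X} {k : ℕ} (hk : g^[k] p = p) (a : LZ g p) :
    (dnZ hk a).z.pr T.toQS = g.symm^[k] (a.z.pr T.toQS) := by
  apply Leaf.pr_eq
  have h := T.iterB (a.z.pr_spec T.toQS) k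
  rwa [symm_fix hk] at h

theorem nb_up (T : IQS g c') {p : X} {k : ℕ} (hk : g^[k] p = p) {ε : ℝ} (hε : 0 < ε) :
    ∃ η > 0, ∀ a b : LZ g p, Nb T.toQS η a.z b.z → Nb T.toQS ε (upZ hk a).z (upZ hk b).z := by
  obtain ⟨η, hη, h1⟩ := map_SM_iter (g := g.symm) (φ := g) (fun x => by simp) k ε hε
  refine ⟨min ε η, lt_min hε hη, fun a b hab => ?_⟩
  obtain ⟨w, hw, h2, h3⟩ := hab
  refine ⟨g^[k] w, ?_, ?_, ?_⟩
  · have h := T.iterF hw k
    rwa [hk] at h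
  · rw [pr_up]
    exact (h2.mono (min_le_left _ _)).it12 k
  · rw [pr_up]
    exact h1 _ _ (h3.mono (min_le_right _ _))

theorem nb_dn (T : IQS g c') {p : X} {k : ℕ} (hk : g^[k] p = p) {ε : ℝ} (hε : 0 < ε) :
    ∃ η > 0, ∀ a b : LZ g p, Nb T.toQS η a.z b.z → Nb T.toQS ε (dnZ hk a).z (dnZ hk b).z := by
  obtain ⟨η, hη, h1⟩ := map_SM_iter (g := g) (φ := g.symm) (fun x => by simp) k ε hε
  refine ⟨min ε η, lt_min hε hη, fun a b hab => ?_⟩
  obtain ⟨w, hw, h2, h3⟩ := hab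
  refine ⟨g.symm^[k] w, ?_, ?_, ?_⟩
  · have h := T.iterB hw k
    rwa [symm_fix hk] at h
  · rw [pr_dn]
    exact h1 _ _ (h2.mono (min_le_right _ _))
  · rw [pr_dn]
    exact (h3.mono (min_le_left _ _)).it12 k

/-- maps which respect the neighbour relation and the projection are continuous -/
theorem continuous_of_nb (h : LP g c) (T : QS g c') {p : X} {ε r : ℝ} (hsc : Sc T p ε r)
    (h2 : 2 * ε ≤ c) {G : LZ g p → LZ g p} {φ : X → X} (hφ : Continuous φ)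
    (hpr : ∀ a, (G a).z.pr T = φ (a.z.pr T))
    (hG : ∃ η > 0, ∀ a b : LZ g p, Nb T η a.z b.z → Nb T ε (G a).z (G b).z) :
    letI := hsc.met
    Continuous G := by
  letI := hsc.met
  have hr := hsc.pos
  have hdist : ∀ a b : LZ g p, dist a b = dst T ε r a.z b.z := fun a b => rfl
  obtain ⟨η, hη, hG⟩ := hG
  obtain ⟨r1, hr1, hsm⟩ := Nb_small h T (p := p) hsc.eps h2 η hη
  have hu := CompactSpace.uniformContinuous_of_continuous hφ
  rw [Metric.uniformContinuous_iff] at hu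
  show Continuous G
  rw [Metric.continuous_iff]
  intro b ε₀ hε₀
  obtain ⟨δ, hδ, hu1⟩ := hu (min ε₀ r) (by positivity)
  refine ⟨min δ (min r1 r), by positivity, fun a ha => ?_⟩
  rw [hdist] at ha ⊢
  obtain ⟨h4, h5⟩ := dst_lt (ha.trans_le ((min_le_right _ _).trans (min_le_right _ _)))
  rw [h5] at ha
  have h6 := hG _ _ (hsm _ _ h4 (ha.trans_le ((min_le_right _ _).trans (min_le_left _ _))))
  have h7 : dist ((G a).z.pr T) ((G b).z.pr T) < min ε₀ r := by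
    rw [hpr, hpr]
    exact hu1 (ha.trans_le (min_le_left _ _))
  rw [dst_eq h6 (h7.trans_le (min_le_right _ _))]
  exact h7.trans_le (min_le_left _ _)

/-- nearby points have nearby stable coordinates -/
theorem near_s (h : LP g c) (T : QS g c') (hc' : 0 < c') {p : X} {ε r : ℝ} (hsc : Sc T p ε r)
    (h2 : 2 * ε ≤ c) (a : LZ g p) {ρ : ℝ} (hρ : 0 < ρ) :
    letI := hsc.met
    ∀ᶠ b in 𝓝 a, SR g ρ a.z.s b.z.s ∧ Nb T ρ a.z b.z := by
  letI := hsc.met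
  have hr := hsc.pos
  have hdist : ∀ a b : LZ g p, dist a b = dst T ε r a.z b.z := fun a b => rfl
  obtain ⟨j, hj⟩ := ((T.wU _ _ _ _ (a.z.pr_spec T)).symm').level12 hc'
  obtain ⟨η, hη, H⟩ := T.contS j ρ hρ
  obtain ⟨r1, hr1, hsm⟩ := Nb_small h T (p := p) hsc.eps h2 (min η ρ) (by positivity)
  show ∀ᶠ b in 𝓝 a, SR g ρ a.z.s b.z.s ∧ Nb T ρ a.z b.z
  rw [Metric.eventually_nhds_iff]
  refine ⟨min r1 r, by positivity, fun b hb => ?_⟩
  rw [dist_comm, hdist] at hb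
  obtain ⟨h4, h5⟩ := dst_lt (hb.trans_le (min_le_right _ _))
  rw [h5] at hb
  have h6 := hsm _ _ h4 (hb.trans_le (min_le_left _ _))
  refine ⟨?_, h6.mono (min_le_right _ _)⟩
  obtain ⟨w, hw, h7, h8⟩ := h6
  have q1 : T.Q a.z.s b.z.s (a.z.pr T) w := T.compS _ _ _ _ _ _ (T.flipS _ _ _ _ (a.z.pr_spec T)) hw
  exact H _ _ _ _ (T.flipU _ _ _ _ q1) (h7.mono (min_le_left _ _)) hj

/-- thinness: the backward iterates of a compact set approach the stable leaf -/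
theorem thin (h : LP g c) (T : IQS g c') (hc' : 0 < c') {p : X} {ε r : ℝ}
    (hsc : Sc T.toQS p ε r) (h2 : 2 * ε ≤ c) {ε₀ : ℝ} (hε₀ : 0 < ε₀) {A : Set (LZ g p)}
    (hA : letI := hsc.met; IsCompact A) :
    ∃ k₀ : ℕ, ∀ k ≥ k₀, ∀ a ∈ A,
      SR g.symm ε₀ (g.symm^[k] a.z.s) (g.symm^[k] (a.z.pr T.toQS)) := by
  letI := hsc.met
  have hA' : IsCompact A := hA
  obtain ⟨η, hη, H⟩ := T.contU 0 (ε₀ / 2) (by positivity)
  have hloc : ∀ a : LZ g p, ∃ k₀ : ℕ, ∀ᶠ b in 𝓝 a, ∀ k ≥ k₀,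
      SR g.symm ε₀ (g.symm^[k] b.z.s) (g.symm^[k] (b.z.pr T.toQS)) := by
    intro a
    obtain ⟨k₀, hk₀⟩ := (T.wU _ _ _ _ (a.z.pr_spec T.toQS)).level12 hη
    obtain ⟨ρ, hρ, hρ'⟩ := map_SM_iter (g := g) (φ := g.symm) (fun x => by simp) k₀ c' hc'
    have h3 : ∀ᶠ b in 𝓝 a, SR g (min ρ (ε₀ / 2)) a.z.s b.z.s ∧
        Nb T.toQS (min ρ (ε₀ / 2)) a.z b.z :=
      near_s h T.toQS hc' hsc h2 a (by positivity)
    refine ⟨k₀, ?_⟩
    filter_upwards [h3] with b hb k hk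
    obtain ⟨h4, w, hw, h7, h8⟩ := hb
    have q1 : T.Q a.z.s b.z.s (a.z.pr T.toQS) w :=
      T.compS _ _ _ _ _ _ (T.flipS _ _ _ _ (a.z.pr_spec T.toQS)) hw
    have h5 : SR g.symm (ε₀ / 2) (g.symm^[k₀] b.z.s) (g.symm^[k₀] w) :=
      H _ _ _ _ (T.iterB q1 k₀) hk₀ (hρ' _ _ (h4.mono (min_le_left _ _)))
    obtain ⟨m, rfl⟩ := Nat.exists_eq_add_of_le' hk
    have h6 := h5.it12 m
    rw [← Function.iterate_add_apply, ← Function.iterate_add_apply] at h6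
    exact (h6.tr12 (h8.it12 (m + k₀))).mono (by
      have := min_le_right ρ (ε₀ / 2)
      linarith)
  refine hA'.induction_on (p := fun s => ∃ k₀ : ℕ, ∀ k ≥ k₀, ∀ a ∈ s,
      SR g.symm ε₀ (g.symm^[k] a.z.s) (g.symm^[k] (a.z.pr T.toQS))) ?_ ?_ ?_ ?_
  · exact ⟨0, fun k _ a ha => absurd ha (notMem_empty _)⟩
  · rintro s t hst ⟨k₀, hk₀⟩
    exact ⟨k₀, fun k hk a ha => hk₀ k hk a (hst ha)⟩
  · rintro s t ⟨k₀, hk₀⟩ ⟨k₁, hk₁⟩
    refine ⟨max k₀ k₁, fun k hk a ha => ?_⟩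
    rcases ha with ha | ha
    · exact hk₀ k ((le_max_left _ _).trans hk) a ha
    · exact hk₁ k ((le_max_right _ _).trans hk) a ha
  · intro a _
    obtain ⟨k₀, hk₀⟩ := hloc a
    exact ⟨_, mem_nhdsWithin_of_mem_nhds hk₀, k₀, fun k hk b hb => hb k hk⟩

/-- absorption: the forward iterates of the stable coordinates of a compact set approach the orbit
of the base point -/
theorem absorb (h : LP g c) (T : QS g c') (hc' : 0 < c') {p : X} {ε r : ℝ}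
    (hsc : Sc T p ε r) (h2 : 2 * ε ≤ c) {ε₀ : ℝ} (hε₀ : 0 < ε₀) {A : Set (LZ g p)}
    (hA : letI := hsc.met; IsCompact A) :
    ∃ k₀ : ℕ, ∀ k ≥ k₀, ∀ a ∈ A, SR g ε₀ (g^[k] p) (g^[k] a.z.s) := by
  letI := hsc.met
  have hA' : IsCompact A := hA
  have hloc : ∀ a : LZ g p, ∃ k₀ : ℕ, ∀ᶠ b in 𝓝 a, ∀ k ≥ k₀,
      SR g ε₀ (g^[k] p) (g^[k] b.z.s) := by
    intro a
    obtain ⟨k₀, hk₀⟩ := a.z.hs.level12 (half_pos hε₀)
    have h3 : ∀ᶠ b in 𝓝 a, SR g (ε₀ / 2) a.z.s b.z.s ∧ Nb T (ε₀ / 2) a.z b.z :=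
      near_s h T hc' hsc h2 a (by positivity)
    refine ⟨k₀, ?_⟩
    filter_upwards [h3] with b hb k hk
    obtain ⟨m, rfl⟩ := Nat.exists_eq_add_of_le' hk
    have h6 := hk₀.it12 m
    rw [← Function.iterate_add_apply, ← Function.iterate_add_apply] at h6
    exact (h6.tr12 (hb.1.it12 (m + k₀))).mono (by linarith)
  refine hA'.induction_on (p := fun s => ∃ k₀ : ℕ, ∀ k ≥ k₀, ∀ a ∈ s,
      SR g ε₀ (g^[k] p) (g^[k] a.z.s)) ?_ ?_ ?_ ?_
  · exact ⟨0, fun k _ a ha => absurd ha (notMem_empty _)⟩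
  · rintro s t hst ⟨k₀, hk₀⟩
    exact ⟨k₀, fun k hk a ha => hk₀ k hk a (hst ha)⟩
  · rintro s t ⟨k₀, hk₀⟩ ⟨k₁, hk₁⟩
    refine ⟨max k₀ k₁, fun k hk a ha => ?_⟩
    rcases ha with ha | ha
    · exact hk₀ k ((le_max_left _ _).trans hk) a ha
    · exact hk₁ k ((le_max_right _ _).trans hk) a ha
  · intro a _
    obtain ⟨k₀, hk₀⟩ := hloc a
    exact ⟨_, mem_nhdsWithin_of_mem_nhds hk₀, k₀, fun k hk b hb => hb k hk⟩

/-- backward iterates of compact sets are close to the stable leaf -/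
theorem thin_dist (h : LP g c) (T : IQS g c') (hc' : 0 < c') {p : X} {ε r : ℝ}
    (hsc : Sc T.toQS p ε r) (h2 : 2 * ε ≤ c) {δ : ℝ} (hδ : 0 < δ) {A : Set (LZ g p)}
    (hA : letI := hsc.met; IsCompact A) :
    letI := hsc.met
    ∃ k₀ : ℕ, ∀ k ≥ k₀, ∀ hk : g^[k] p = p, ∀ a ∈ A, ∃ b ∈ LL g p, dist (dnZ hk a) b < δ := by
  letI := hsc.met
  have hr := hsc.pos
  have hε := hsc.eps
  have hdist : ∀ a b : LZ g p, dist a b = dst T.toQS ε r a.z b.z := fun a b => rfl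
  obtain ⟨k₀, hk₀⟩ := thin h T hc' hsc h2 (ε₀ := min ε (min (δ / 2) (r / 2))) (by positivity) hA
  refine ⟨k₀, fun k hk hkp a ha => ?_⟩
  have h3 := hk₀ k hk a ha
  have h4 : SR g.symm (min ε (min (δ / 2) (r / 2))) (dnZ hkp a).z.s
      ((dnZ hkp a).z.pr T.toQS) := by
    rw [pr_dn]
    exact h3
  have h5 : Nb T.toQS ε (mkL (dnZ hkp a).z.s (dnZ hkp a).z.hs).z (dnZ hkp a).z :=
    nb_mkL T.toQS _ (SR_self hε.le _) (h4.mono (min_le_left _ _))
  have h6 : dist (dnZ hkp a).z.s ((dnZ hkp a).z.pr T.toQS) ≤ min (δ / 2) (r / 2) :=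
    h4.dist12.trans (min_le_right _ _)
  have h7 : dist (dnZ hkp a).z.s ((dnZ hkp a).z.pr T.toQS) < r :=
    h6.trans_lt ((min_le_right _ _).trans_lt (by linarith))
  refine ⟨mkL (dnZ hkp a).z.s (dnZ hkp a).z.hs, mkL_mem _, ?_⟩
  rw [dist_comm, hdist, dst_eq h5 (by rw [pr_mkL]; exact h7), pr_mkL]
  exact h6.trans_lt ((min_le_left _ _).trans_lt (by linarith))

/-- forward iterates of compact subsets of the stable leaf are close to the base point -/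
theorem absorb_dist (h : LP g c) (T : QS g c') (hc' : 0 < c') {p : X} {ε r : ℝ}
    (hsc : Sc T p ε r) (h2 : 2 * ε ≤ c) {δ : ℝ} (hδ : 0 < δ) {A : Set (LZ g p)}
    (hA : letI := hsc.met; IsCompact A) (hAL : A ⊆ LL g p) :
    letI := hsc.met
    ∃ k₀ : ℕ, ∀ k ≥ k₀, ∀ hk : g^[k] p = p, ∀ a ∈ A,
      dist (upZ hk a) (mkL p (WS.refl g p)) < δ := by
  letI := hsc.met
  have hr := hsc.pos
  have hε := hsc.eps
  have hdist : ∀ a b : LZ g p, dist a b = dst T ε r a.z b.z := fun a b => rfl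
  obtain ⟨k₀, hk₀⟩ := absorb h T hc' hsc h2 (ε₀ := min ε (min (δ / 2) (r / 2))) (by positivity) hA
  refine ⟨k₀, fun k hk hkp a ha => ?_⟩
  have h3 := hk₀ k hk a ha
  rw [hkp] at h3
  have hmem : upZ hkp a ∈ LL g p := by
    show g^[k] a.z.u = p
    have : a.z.u = p := hAL ha
    rw [this, hkp]
  have h5 : Nb T ε (mkL p (WS.refl g p)).z (upZ hkp a).z := by
    refine nb_mkL T _ (h3.mono (min_le_left _ _)) ?_
    rw [pr_of_mem T hmem]
    exact SR_self hε.le _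
  have h6 : dist p (upZ hkp a).z.s ≤ min (δ / 2) (r / 2) :=
    h3.dist12.trans (min_le_right _ _)
  have h7 : dist p (upZ hkp a).z.s < r :=
    h6.trans_lt ((min_le_right _ _).trans_lt (by linarith))
  rw [dist_comm, hdist, dst_eq h5 (by rw [pr_mkL, pr_of_mem T hmem]; exact h7), pr_mkL,
    pr_of_mem T hmem]
  exact h6.trans_lt ((min_le_left _ _).trans_lt (by linarith))

end Pool.Agent.H827.AN
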